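import Mathlib

/-!
MP_ee9c6f_al, genus 3 (helper77). Permutations of `Q × K^J` which are affine on the fibres; a group
which acts in this way with finitely many linear parts and contains an element of infinite order has a
subgroup of finite index with a nonzero homomorphism to the integers.
-/

set_option autoImplicit false

namespace Pool.Agent.H.MP_ee9c6f_al.E3Rep

open Matrix

variable {K : Type} [Field K] {J : Type} [Fintype J] [DecidableEq J] {Q : Type}

/-- `f` permutes the fibres `{q} × K^J` and is affine on each of them, with linear part in `N`. -/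
def IsBlk (N : Subgroup (GL J K)) (f : Equiv.Perm (Q × (J → K))) : Prop :=
  ∃ σ : Equiv.Perm Q, ∀ q : Q, ∃ A ∈ N, ∃ t : J → K,
    ∀ v : J → K, f (q, v) = (σ q, (A : Matrix J J K) *ᵥ v + t)

theorem isBlk_one (N : Subgroup (GL J K)) : IsBlk (Q := Q) N 1 :=
  ⟨1, fun q => ⟨1, N.one_mem, 0, fun v => by simp⟩⟩

theorem isBlk_mul {N : Subgroup (GL J K)} {f g : Equiv.Perm (Q × (J → K))} (hf : IsBlk N f)
    (hg : IsBlk N g) : IsBlk N (f * g) := by
  obtain ⟨σ, hf⟩ := hf
  obtain ⟨τ, hg⟩ := hg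
  refine ⟨σ * τ, fun q => ?_⟩
  obtain ⟨B, hB, s, hg⟩ := hg q
  obtain ⟨A, hA, t, hf⟩ := hf (τ q)
  refine ⟨A * B, N.mul_mem hA hB, (A : Matrix J J K) *ᵥ s + t, fun v => ?_⟩
  rw [Equiv.Perm.mul_apply, hg, hf, Equiv.Perm.mul_apply, Matrix.GeneralLinearGroup.coe_mul,
    ← Matrix.mulVec_mulVec, Matrix.mulVec_add, add_assoc]

theorem isBlk_inv {N : Subgroup (GL J K)} {f : Equiv.Perm (Q × (J → K))} (hf : IsBlk N f) :
    IsBlk N f⁻¹ := by
  obtain ⟨σ, hf⟩ := hf
  refine ⟨σ⁻¹, fun q => ?_⟩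
  obtain ⟨A, hA, t, hf⟩ := hf (σ⁻¹ q)
  refine ⟨A⁻¹, N.inv_mem hA, -(((A⁻¹ : GL J K) : Matrix J J K) *ᵥ t), fun v => ?_⟩
  rw [Equiv.Perm.inv_eq_iff_eq, hf]
  have e1 : (A : Matrix J J K) * ((A⁻¹ : GL J K) : Matrix J J K) = 1 := by
    rw [← Matrix.GeneralLinearGroup.coe_mul, mul_inv_cancel]; rfl
  rw [Matrix.mulVec_add, Matrix.mulVec_neg, Matrix.mulVec_mulVec, Matrix.mulVec_mulVec, e1]
  simp

/-- The subgroup of those `g` for which `ρ g` is a translation of the fibre over `q`. -/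
def Tr {G : Type} [Group G] (ρ : G →* Equiv.Perm (Q × (J → K))) (q : Q) : Subgroup G where
  carrier := {g | ∀ v : J → K, ρ g (q, v) = (q, v + (ρ g (q, 0)).2)}
  one_mem' := by
    intro v
    simp
  mul_mem' := by
    intro a b ha hb v
    have e1 : ρ (a * b) (q, v) = (q, v + (ρ b (q, 0)).2 + (ρ a (q, 0)).2) := by
      rw [map_mul, Equiv.Perm.mul_apply, hb v, ha]
    have e2 : ρ (a * b) (q, 0) = (q, (0 : J → K) + (ρ b (q, 0)).2 + (ρ a (q, 0)).2) := by
      rw [map_mul, Equiv.Perm.mul_apply, hb 0, ha]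
      simp
    rw [e1, e2]
    simp [add_assoc]
  inv_mem' := by
    intro a ha v
    have e1 : ∀ w : J → K, ρ a⁻¹ (q, w) = (q, w - (ρ a (q, 0)).2) := by
      intro w
      rw [map_inv, Equiv.Perm.inv_eq_iff_eq, ha]
      simp
    rw [e1, e1]
    simp [sub_eq_add_neg]

theorem mem_tr {G : Type} [Group G] {ρ : G →* Equiv.Perm (Q × (J → K))} {q : Q} {g : G} :
    g ∈ Tr ρ q ↔ ∀ v : J → K, ρ g (q, v) = (q, v + (ρ g (q, 0)).2) := Iff.rfl

theorem tr_finiteIndex {G : Type} [Group G] (ρ : G →* Equiv.Perm (Q × (J → K))) [Finite Q]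
    (N : Subgroup (GL J K)) [Finite N] (h : ∀ g, IsBlk N (ρ g)) (q : Q) :
    (Tr ρ q).FiniteIndex := by
  classical
  choose σ hσ using h
  let A : G → N := fun g => ⟨(hσ g q).choose, (hσ g q).choose_spec.1⟩
  have hA : ∀ g, ∃ t : J → K, ∀ v, ρ g (q, v) = (σ g q, ((A g).1 : Matrix J J K) *ᵥ v + t) :=
    fun g => (hσ g q).choose_spec.2
  let F : G ⧸ Tr ρ q → Q × N := fun x => (σ x.out q, A x.out)
  have hF : Function.Injective F := by
    intro x y hxy
    have h1 : σ x.out q = σ y.out q := congrArg Prod.fst hxy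
    have h2 : A x.out = A y.out := congrArg Prod.snd hxy
    rw [← QuotientGroup.out_eq' x, ← QuotientGroup.out_eq' y, QuotientGroup.eq]
    obtain ⟨s, hs⟩ := hA x.out
    obtain ⟨t, ht⟩ := hA y.out
    set B : GL J K := (A x.out).1 with hB
    have e1 : ((B⁻¹ : GL J K) : Matrix J J K) * (B : Matrix J J K) = 1 := by
      rw [← Matrix.GeneralLinearGroup.coe_mul, inv_mul_cancel]; rfl
    have e2 : (B : Matrix J J K) * ((B⁻¹ : GL J K) : Matrix J J K) = 1 := by
      rw [← Matrix.GeneralLinearGroup.coe_mul, mul_inv_cancel]; rfl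
    have e3 : ∀ v, ρ (x.out⁻¹ * y.out) (q, v) =
        (q, v + ((B⁻¹ : GL J K) : Matrix J J K) *ᵥ (t - s)) := by
      intro v
      rw [map_mul, map_inv, Equiv.Perm.mul_apply, Equiv.Perm.inv_eq_iff_eq, hs, ht, h1, ← h2,
        Matrix.mulVec_add, Matrix.mulVec_mulVec, e2, Matrix.one_mulVec]
      congr 1
      abel
    rw [mem_tr]
    intro v
    rw [e3, e3]
    simp
  haveI : Finite (G ⧸ Tr ρ q) := Finite.of_injective F hF
  exact Subgroup.finiteIndex_of_finite_quotient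

/-- an additive map on a finitely generated group with rational values is a multiple of one with
integer values -/
theorem exists_char {M : Type} [Group M] [Group.FG M] (φ : M → ℚ)
    (hφ : ∀ x y, φ (x * y) = φ x + φ y) {m : M} (hm : φ m ≠ 0) :
    ∃ χ : M →* Multiplicative ℤ, χ m ≠ 1 := by
  classical
  obtain ⟨S, hS⟩ := Group.fg_def.1 (inferInstance : Group.FG M)
  -- common denominator
  let D : ℕ := ∏ s ∈ S, (φ s).den
  have hD : D ≠ 0 := Finset.prod_ne_zero_iff.2 fun s _ => (φ s).den_nz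
  have h1 : φ 1 = 0 := by
    have := hφ 1 1
    rw [one_mul] at this
    linarith
  have hinv : ∀ x, φ x⁻¹ = -φ x := by
    intro x
    have := hφ x x⁻¹
    rw [mul_inv_cancel, h1] at this
    linarith
  have hint : ∀ x : M, ∃ k : ℤ, (D : ℚ) * φ x = k := by
    intro x
    have hx : x ∈ Subgroup.closure (S : Set M) := by rw [hS]; trivial
    induction hx using Subgroup.closure_induction with
    | mem x hx =>
        obtain ⟨e, he⟩ : (φ x).den ∣ D := Finset.dvd_prod_of_mem _ hx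
        refine ⟨e * (φ x).num, ?_⟩
        have : φ x * ((φ x).den : ℚ) = (φ x).num := Rat.mul_den_eq_num _
        rw [he]
        push_cast
        linear_combination (e : ℚ) * this
    | one => exact ⟨0, by rw [h1]; simp⟩
    | mul x y _ _ hx hy =>
        obtain ⟨a, ha⟩ := hx
        obtain ⟨b, hb⟩ := hy
        exact ⟨a + b, by rw [hφ, mul_add, ha, hb]; push_cast; ring⟩
    | inv x _ hx =>
        obtain ⟨a, ha⟩ := hx
        exact ⟨-a, by rw [hinv, mul_neg, ha]; push_cast; ring⟩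
  choose k hk using hint
  let χ : M →* Multiplicative ℤ :=
    { toFun := fun x => Multiplicative.ofAdd (k x)
      map_one' := by
        have : (k 1 : ℚ) = 0 := by rw [← hk, h1, mul_zero]
        have h0 : k 1 = 0 := by exact_mod_cast this
        rw [h0]
        rfl
      map_mul' := by
        intro x y
        have : (k (x * y) : ℚ) = k x + k y := by rw [← hk, ← hk, ← hk, hφ, mul_add]
        have h0 : k (x * y) = k x + k y := by exact_mod_cast this
        rw [h0]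
        rfl }
  refine ⟨χ, fun h => ?_⟩
  have h0 : k m = 0 := h
  have : (D : ℚ) * φ m = 0 := by rw [hk, h0]; simp
  rcases mul_eq_zero.1 this with h | h
  · exact hD (by exact_mod_cast h)
  · exact hm h

/-- the conclusion of this file -/
theorem exists_sub {G : Type} [Group G] [Group.FG G] [CharZero K]
    (ρ : G →* Equiv.Perm (Q × (J → K))) [Finite Q] (N : Subgroup (GL J K)) [Finite N]
    (h : ∀ g, IsBlk N (ρ g)) (q : Q) (z : G) (hz : ∀ k : ℕ, 0 < k → ρ (z ^ k) (q, 0) ≠ (q, 0)) :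
    ∃ M : Subgroup G, M.FiniteIndex ∧ ∃ χ : M →* Multiplicative ℤ, ∃ m, χ m ≠ 1 := by
  classical
  haveI := tr_finiteIndex ρ N h q
  refine ⟨Tr ρ q, inferInstance, ?_⟩
  obtain ⟨k, hk, hkz⟩ : ∃ k : ℕ, 0 < k ∧ z ^ k ∈ Tr ρ q := by
    obtain ⟨k, h1, h2, h3⟩ := Subgroup.exists_pow_mem_of_index_ne_zero
      (H := Tr ρ q) Subgroup.FiniteIndex.index_ne_zero z
    exact ⟨k, h1, h3⟩
  let m : Tr ρ q := ⟨z ^ k, hkz⟩
  have ht : (ρ (z ^ k) (q, 0)).2 ≠ 0 := by
    intro h0
    have := mem_tr.1 hkz 0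
    rw [h0, add_zero] at this
    exact hz k hk this
  obtain ⟨j, hj⟩ : ∃ j, (ρ (z ^ k) (q, 0)).2 j ≠ 0 := Function.ne_iff.1 ht
  obtain ⟨f, hf⟩ : ∃ f : Module.Dual ℚ K, f ((ρ (z ^ k) (q, 0)).2 j) ≠ 0 := by
    by_contra hcon
    push Not at hcon
    exact hj ((Module.forall_dual_apply_eq_zero_iff ℚ _).1 hcon)
  haveI : Group.FG (Tr ρ q) := inferInstance
  obtain ⟨χ, hχ⟩ := exists_char (M := Tr ρ q) (fun g => f ((ρ g.1 (q, 0)).2 j)) (by
    intro x y
    have hx := mem_tr.1 x.2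
    have hy := mem_tr.1 y.2
    have : ρ (x.1 * y.1) (q, 0) = (q, (ρ y.1 (q, 0)).2 + (ρ x.1 (q, 0)).2) := by
      rw [map_mul, Equiv.Perm.mul_apply, hy 0, hx]
    change f ((ρ (x.1 * y.1) (q, 0)).2 j) = _
    rw [this]
    simp only [Pi.add_apply, map_add]
    ring) (m := m) hf
  exact ⟨χ, m, hχ⟩

end Pool.Agent.H.MP_ee9c6f_al.E3Rep
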