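import Pool.Agent.H.MP_ee9c6f_al.E3Rep.Tab

/-!
MP_ee9c6f_al, genus 3 (helper77). Soundness of the evaluation: a check with integers gives an identity
of affine maps.
-/

set_option autoImplicit false

namespace Pool.Agent.H.MP_ee9c6f_al.E3Rep

/-- the base -/
def BB : ℕ := 0x4d88176249098172db24ecf4b29df7116ca90c24f56fe8b91822bbaa9bd695dd8d8223ebeb263b8291731293

theorem BB_eq : BB = 3 ^ 221 := by decide +kernel

/-- the vector of the columns; the column of the translation has the weight `t` -/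
def pk (t : ℕ) : List Gi :=
  [(1, 0), (Int.ofNat BB, 0), (Int.ofNat (Nat.pow BB 2), 0), (Int.ofNat (Nat.pow BB 3), 0),
    (Int.ofNat (Nat.pow BB 4), 0), (Int.ofNat (Nat.pow BB 5), 0), (Int.ofNat (Nat.pow BB 6), 0),
    (Int.ofNat (Nat.pow BB 7), 0), (Int.ofNat (Nat.mul t (Nat.pow BB 8)), 0)]

/-- the weights -/
def om (t : ℕ) (k : ℕ) : ℤ := if k = 8 then (t : ℤ) * (BB : ℤ) ^ 8 else (BB : ℤ) ^ k

theorem gt_pk (t : ℕ) : ∀ j < 9, gt (pk t) j = (om t j, 0) := by
  have e : ∀ m : ℕ, Int.ofNat (Nat.pow BB m) = (BB : ℤ) ^ m := by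
    intro m
    rw [Int.ofNat_eq_natCast, Nat.pow_eq]
    push_cast
    rfl
  intro j hj
  have e8 : Int.ofNat (Nat.mul t (Nat.pow BB 8)) = (t : ℤ) * (BB : ℤ) ^ 8 := by
    rw [Int.ofNat_eq_natCast, Nat.pow_eq, Nat.mul_eq]
    push_cast
    rfl
  by_cases h8 : j = 8
  · subst h8
    unfold pk om
    rw [if_pos rfl]
    simp only [gt, e8]
  · unfold om
    rw [if_neg h8]
    have hj' : j < 8 := by omega
    interval_cases j
    · simp [pk, gt]
    · simp [pk, gt]
    all_goals simp only [pk, gt, e]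

theorem digitsG {B : ℤ} (n : ℕ) (z : ℕ → Gi) (hz : ∀ k < n, |(z k).1| < B ∧ |(z k).2| < B)
    (h : ∑ k ∈ Finset.range n, B ^ k • z k = 0) : ∀ k < n, z k = 0 := by
  have h1 : ∑ k ∈ Finset.range n, B ^ k * (z k).1 = 0 := by
    have := congrArg Prod.fst h
    rw [Prod.fst_sum] at this
    exact this
  have h2 : ∑ k ∈ Finset.range n, B ^ k * (z k).2 = 0 := by
    have := congrArg Prod.snd h
    rw [Prod.snd_sum] at this
    exact this
  intro k hk
  exact Prod.ext (digits n (fun k => (z k).1) (fun k hk => (hz k hk).1) h1 k hk)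
    (digits n (fun k => (z k).2) (fun k hk => (hz k hk).2) h2 k hk)

theorem wm_eight (w : List Op) {k : ℕ} (hk : k ≠ 8) : Wm w 8 k = 0 := by
  induction w with
  | nil =>
    change fr 8 k = 0
    rw [fr, if_neg (Ne.symm hk)]
    rfl
  | cons p w ih =>
    change stpM rotF p (evM rotF w fr) 8 k = 0
    unfold stpM
    rw [if_neg (by norm_num)]
    split_ifs
    · change Wm w 8 k + rot 1 (Wm w 8 k) = 0
      rw [ih]
      rfl
    · exact ih

theorem ev_pk (w : List Op) (t : ℕ) {j : ℕ} (hj : j < 9) :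
    gt (ev w (pk t)) j = ∑ k ∈ Finset.range 9, om t k • Wm w j k := by
  rw [gt_ev w _ j hj, evM_psi w (om t) (gt_pk t) hj]

theorem BB_bd (w : List Op) (h : w.length ≤ 218) : (2 : ℤ) * 3 ^ w.length + 2 ^ 200 < (BB : ℤ) := by
  have h1 : (3 : ℤ) ^ w.length ≤ 3 ^ 218 := pow_le_pow_right₀ (by norm_num) h
  have h2 : (2 : ℤ) * 3 ^ 218 + 2 ^ 200 < 3 ^ 221 := by norm_num
  rw [BB_eq]
  push_cast
  linarith

/-- multiplication by a power of the base -/
def ml (m : ℕ) (z : Gi) : Gi :=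
  (Int.mul z.1 (Int.ofNat (Nat.pow BB m)), Int.mul z.2 (Int.ofNat (Nat.pow BB m)))

theorem ml_eq (m : ℕ) (z : Gi) : ml m z = (BB : ℤ) ^ m • z := by
  have e : Int.ofNat (Nat.pow BB m) = (BB : ℤ) ^ m := by
    rw [Int.ofNat_eq_natCast, Nat.pow_eq]
    push_cast
    rfl
  unfold ml
  rw [e]
  exact Prod.ext (mul_comm _ _) (mul_comm _ _)

/-- the final check: the vector is a multiple of the vector of columns plus the translation `τ` -/
def okP (τ l : List Gi) : Bool :=
  all (fun j => eqG (ml (Nat.sub 8 j) (gt l j))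
    (add3 (gt l 8) (ml (Nat.sub 16 j) (gt τ j)) (0, 0))) 8

theorem crit_wm {w : List Op} (hw : w.length ≤ 218) {τ : List Gi}
    (hτ : ∀ j < 8, |(gt τ j).1| ≤ 2 ^ 100 ∧ |(gt τ j).2| ≤ 2 ^ 100)
    (h : okP τ (ev w (pk 1)) = true) {j : ℕ} (hj : j < 8) {k : ℕ} (hk : k < 9) :
    Wm w j k = (if k = j then Wm w 8 8 else 0) + (if k = 8 then gt τ j else 0) := by
  have h1 := eqG_sound (all_sound h hj)
  rw [ml_eq, ml_eq, ev_pk w 1 (by omega), ev_pk w 1 (by norm_num)] at h1
  have e8 : ∑ k ∈ Finset.range 9, om 1 k • Wm w 8 k = (BB : ℤ) ^ 8 • Wm w 8 8 := by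
    rw [Finset.sum_eq_single 8]
    · simp [om]
    · intro k _ hk
      rw [wm_eight w hk, smul_zero]
    · intro h
      exact absurd (Finset.mem_range.2 (by norm_num)) h
  rw [e8] at h1
  have eo : ∀ k, om 1 k = (BB : ℤ) ^ k := by
    intro k
    unfold om
    split_ifs with hk
    · rw [hk]; simp
    · rfl
  simp only [eo] at h1
  have hadd : ∀ x y : Gi, add3 x y (0, 0) = x + y := by
    intro x y
    refine Prod.ext ?_ ?_
    · change x.1 + (y.1 + 0) = x.1 + y.1
      rw [add_zero]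
    · change x.2 + (y.2 + 0) = x.2 + y.2
      rw [add_zero]
  rw [hadd] at h1
  have hB0 : (BB : ℤ) ^ (8 - j) ≠ 0 := pow_ne_zero _ (by rw [BB_eq]; norm_num)
  have hs : Nat.sub 8 j = 8 - j := rfl
  have hs' : Nat.sub 16 j = (8 - j) + 8 := by
    change 16 - j = (8 - j) + 8
    omega
  have hs8 : (BB : ℤ) ^ 8 = BB ^ (8 - j) * BB ^ j := by
    rw [← pow_add]
    congr 1
    omega
  rw [hs, hs'] at h1
  set B : ℤ := (BB : ℤ) with hB
  have h2 : B ^ (8 - j) • (∑ k ∈ Finset.range 9, B ^ k • (Wm w j k -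
      ((if k = j then Wm w 8 8 else 0) + (if k = 8 then gt τ j else 0)))) = 0 := by
    have e1 : ∑ k ∈ Finset.range 9, B ^ k • (Wm w j k -
        ((if k = j then Wm w 8 8 else 0) + (if k = 8 then gt τ j else 0))) =
        ∑ k ∈ Finset.range 9, B ^ k • Wm w j k - (B ^ j • Wm w 8 8 + B ^ 8 • gt τ j) := by
      simp only [smul_sub, Finset.sum_sub_distrib, smul_add, Finset.sum_add_distrib]
      congr 2
      · rw [Finset.sum_eq_single j]
        · rw [if_pos rfl]
        · intro k _ hk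
          rw [if_neg hk, smul_zero]
        · intro h
          exact absurd (Finset.mem_range.2 (by omega)) h
      · rw [Finset.sum_eq_single 8]
        · rw [if_pos rfl]
        · intro k _ hk
          rw [if_neg hk, smul_zero]
        · intro h
          exact absurd (Finset.mem_range.2 (by norm_num)) h
    rw [e1, smul_sub, h1, smul_add, smul_smul, smul_smul, ← hs8, pow_add]
    abel
  have h3 := (smul_eq_zero.1 h2).resolve_left hB0
  have h4 := digitsG 9 _ (fun k _ => ?_) h3 k hk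
  · exact sub_eq_zero.1 h4
  · have hb := BB_bd w hw
    obtain ⟨a1, a2⟩ := wm_le w j k
    obtain ⟨b1, b2⟩ := wm_le w 8 8
    obtain ⟨c1, c2⟩ := hτ j hj
    have hC : (0 : ℤ) ≤ 3 ^ w.length := by positivity
    have p1 : |(if k = j then Wm w 8 8 else 0 : Gi).1| ≤ 3 ^ w.length ∧
        |(if k = j then Wm w 8 8 else 0 : Gi).2| ≤ 3 ^ w.length := by
      split_ifs
      · exact ⟨b1, b2⟩
      · simpa using hC
    have p2 : |(if k = 8 then gt τ j else 0 : Gi).1| ≤ 2 ^ 100 ∧
        |(if k = 8 then gt τ j else 0 : Gi).2| ≤ 2 ^ 100 := by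
      split_ifs
      · exact ⟨c1, c2⟩
      · simp
    have hlt : (2 : ℤ) ^ 100 ≤ 2 ^ 200 := by norm_num
    constructor
    · refine lt_of_le_of_lt (abs_sub _ _) ?_
      refine lt_of_le_of_lt (add_le_add le_rfl (abs_add_le _ _)) ?_
      linarith [p1.1, p2.1]
    · refine lt_of_le_of_lt (abs_sub _ _) ?_
      refine lt_of_le_of_lt (add_le_add le_rfl (abs_add_le _ _)) ?_
      linarith [p1.2, p2.2]

/-- two words have the same linear part -/
theorem eq_wm {w w' : List Op} (hw : w.length ≤ 218) (hw' : w'.length ≤ w.length) {j : ℕ}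
    (hj : j < 9) (h : gt (ev w (pk 0)) j = gt (ev w' (pk 0)) j) {k : ℕ} (hk : k < 8) :
    Wm w j k = Wm w' j k := by
  rw [ev_pk w 0 hj, ev_pk w' 0 hj] at h
  have h1 : ∑ k ∈ Finset.range 8, (BB : ℤ) ^ k • (Wm w j k - Wm w' j k) = 0 := by
    rw [Finset.sum_range_succ _ 8, Finset.sum_range_succ _ 8] at h
    have e8 : om 0 8 = 0 := by simp [om]
    rw [e8, zero_smul, zero_smul, add_zero, add_zero] at h
    have e : ∀ k ∈ Finset.range 8, (BB : ℤ) ^ k • (Wm w j k - Wm w' j k) =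
        om 0 k • Wm w j k - om 0 k • Wm w' j k := by
      intro k hk
      have : k ≠ 8 := by
        have := Finset.mem_range.1 hk
        omega
      rw [om, if_neg this, smul_sub]
    rw [Finset.sum_congr rfl e, Finset.sum_sub_distrib, h, sub_self]
  have hb := BB_bd w hw
  have hC : (3 : ℤ) ^ w'.length ≤ 3 ^ w.length := pow_le_pow_right₀ (by norm_num) hw'
  have h0 : (0 : ℤ) ≤ 2 ^ 200 := by norm_num
  have h4 := digitsG 8 _ (fun k _ => ?_) h1 k hk
  · exact sub_eq_zero.1 h4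
  · obtain ⟨a1, a2⟩ := wm_le w j k
    obtain ⟨b1, b2⟩ := wm_le w' j k
    constructor
    · refine lt_of_le_of_lt (abs_sub _ _) ?_
      linarith
    · refine lt_of_le_of_lt (abs_sub _ _) ?_
      linarith

end Pool.Agent.H.MP_ee9c6f_al.E3Rep
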