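import Mathlib

/-!
MP_ee9c6f_al, genus 3 (helper77). Evaluation of words by integer arithmetic in `ℤ[i]`.

A list of nine Gaussian integers `x₀, …, x₇, s` stands for the vector `x / s`. A letter is given by the
codes of eight rows; a row has at most three slots (source, power of `i`). All columns are evaluated
at once: the vector `(1, B, B², …)` is used, where `B` is large.
-/

set_option autoImplicit false

namespace Pool.Agent.H.MP_ee9c6f_al.E3Rep

/-- Gaussian integers -/
abbrev Gi : Type := ℤ × ℤ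

/-- multiplication by the power `k` of `i` -/
def rot (k : ℕ) (x : Gi) : Gi :=
  match k with
  | 0 => x
  | 1 => (Int.neg x.2, x.1)
  | 2 => (Int.neg x.1, Int.neg x.2)
  | _ => (x.2, Int.neg x.1)

/-- entry of a list -/
def gt : List Gi → ℕ → Gi
  | [], _ => (0, 0)
  | x :: _, 0 => x
  | _ :: l, n + 1 => gt l n

/-- the source of a slot -/
def src (e : ℕ) : ℕ := Nat.land e 15
/-- the phase of a slot -/
def phs (e : ℕ) : ℕ := Nat.land (Nat.shiftRight e 4) 3
/-- the slots of a row -/
def s0 (r : ℕ) : ℕ := Nat.land r 63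
/-- the slots of a row -/
def s1 (r : ℕ) : ℕ := Nat.land (Nat.shiftRight r 6) 63
/-- the slots of a row -/
def s2 (r : ℕ) : ℕ := Nat.land (Nat.shiftRight r 12) 63

/-- the contribution of a slot -/
def slot (e : ℕ) (l : List Gi) : Gi :=
  bif Nat.blt (src e) 9 then rot (phs e) (gt l (src e)) else (0, 0)

/-- sum -/
def add3 (x y z : Gi) : Gi := (Int.add x.1 (Int.add y.1 z.1), Int.add x.2 (Int.add y.2 z.2))

/-- value of a row -/
def rowv (r : ℕ) (l : List Gi) : Gi := add3 (slot (s0 r) l) (slot (s1 r) l) (slot (s2 r) l)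

/-- forcing -/
def fN (n : ℕ) (k : ℕ → Bool) : Bool := Nat.rec (k 0) (fun m _ => k (Nat.succ m)) n

theorem fN_eq (n : ℕ) (k : ℕ → Bool) : fN n k = k n := by
  cases n <;> rfl

/-- forcing -/
def fZ (z : ℤ) (k : ℤ → Bool) : Bool :=
  match z with
  | Int.ofNat n => fN n fun n => k (Int.ofNat n)
  | Int.negSucc n => fN n fun n => k (Int.negSucc n)

theorem fZ_eq (z : ℤ) (k : ℤ → Bool) : fZ z k = k z := by
  cases z with
  | ofNat n => exact fN_eq n fun n => k (Int.ofNat n)
  | negSucc n => exact fN_eq n fun n => k (Int.negSucc n)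

/-- value of a row, forced -/
def rowk (r : ℕ) (l : List Gi) (k : Gi → Bool) : Bool :=
  Prod.rec (fun a0 b0 => Prod.rec (fun a1 b1 => Prod.rec (fun a2 b2 =>
    fZ (Int.add a0 (Int.add a1 a2)) fun a => fZ (Int.add b0 (Int.add b1 b2)) fun b => k (a, b))
      (slot (s2 r) l)) (slot (s1 r) l)) (slot (s0 r) l)

theorem rowk_eq (r : ℕ) (l : List Gi) (k : Gi → Bool) : rowk r l k = k (rowv r l) := by
  unfold rowk rowv
  rcases slot (s0 r) l with ⟨a0, b0⟩
  rcases slot (s1 r) l with ⟨a1, b1⟩
  rcases slot (s2 r) l with ⟨a2, b2⟩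
  change fZ _ (fun a => fZ _ fun b => k (a, b)) = _
  rw [fZ_eq, fZ_eq]
  rfl

/-- the new scale -/
def scl (s : Bool) (x : Gi) : Gi := bif s then add3 x (rot 1 x) (0, 0) else x

/-- one letter: the codes of the rows and the scale -/
def stp (R : ℕ → ℕ) (s : Bool) (l : List Gi) : List Gi :=
  [rowv (R 0) l, rowv (R 1) l, rowv (R 2) l, rowv (R 3) l, rowv (R 4) l, rowv (R 5) l,
    rowv (R 6) l, rowv (R 7) l, scl s (gt l 8)]

/-- a row, with forced code and value -/
def rowc (r : ℕ) (l : List Gi) (k : Gi → Bool) : Bool := fN r fun r => rowk r l k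

theorem rowc_eq (r : ℕ) (l : List Gi) (k : Gi → Bool) : rowc r l k = k (rowv r l) := by
  rw [rowc, fN_eq, rowk_eq]

/-- one letter, forced -/
def stpk (R : ℕ → ℕ) (s : Bool) (l : List Gi) (k : List Gi → Bool) : Bool :=
  rowc (R 0) l fun x0 => rowc (R 1) l fun x1 => rowc (R 2) l fun x2 => rowc (R 3) l fun x3 =>
    rowc (R 4) l fun x4 => rowc (R 5) l fun x5 => rowc (R 6) l fun x6 => rowc (R 7) l fun x7 =>
      Prod.rec (fun a b => fZ a fun a => fZ b fun b =>
        k [x0, x1, x2, x3, x4, x5, x6, x7, (a, b)]) (scl s (gt l 8))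

theorem stpk_eq (R : ℕ → ℕ) (s : Bool) (l : List Gi) (k : List Gi → Bool) :
    stpk R s l k = k (stp R s l) := by
  unfold stpk stp
  rw [rowc_eq, rowc_eq, rowc_eq, rowc_eq, rowc_eq, rowc_eq, rowc_eq, rowc_eq]
  rcases scl s (gt l 8) with ⟨a, b⟩
  change fZ _ (fun a => fZ _ fun b => k _) = _
  rw [fZ_eq, fZ_eq]

/-- a letter: codes of the rows, scale -/
abbrev Op : Type := (ℕ → ℕ) × Bool

/-- a word of letters (the last letter acts first) -/
def ev : List Op → List Gi → List Gi
  | [], l => l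
  | p :: w, l => stp p.1 p.2 (ev w l)

/-- a word of letters, forced -/
def evk : List Op → List Gi → (List Gi → Bool) → Bool
  | [], l, k => k l
  | p :: w, l, k => evk w l fun l => stpk p.1 p.2 l k

theorem evk_eq (w : List Op) (l : List Gi) (k : List Gi → Bool) : evk w l k = k (ev w l) := by
  induction w generalizing k with
  | nil => rfl
  | cons p w ih => rw [evk, ih, stpk_eq]; rfl

/-- equality -/
def eqZ : ℤ → ℤ → Bool
  | Int.ofNat a, Int.ofNat b => Nat.beq a b
  | Int.negSucc a, Int.negSucc b => Nat.beq a b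
  | _, _ => false

theorem eqZ_sound {a b : ℤ} (h : eqZ a b = true) : a = b := by
  rcases a with a | a <;> rcases b with b | b
  · rw [Nat.eq_of_beq_eq_true h]
  · cases h
  · cases h
  · rw [Nat.eq_of_beq_eq_true h]

/-- equality -/
def eqG (x y : Gi) : Bool := eqZ x.1 y.1 && eqZ x.2 y.2

theorem eqG_sound {x y : Gi} (h : eqG x y = true) : x = y := by
  simp only [eqG, Bool.and_eq_true] at h
  exact Prod.ext (eqZ_sound h.1) (eqZ_sound h.2)

/-- all numbers below -/
def all (p : ℕ → Bool) : ℕ → Bool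
  | 0 => true
  | n + 1 => p n && all p n

theorem all_sound {p : ℕ → Bool} {n : ℕ} (h : all p n = true) {i : ℕ} (hi : i < n) : p i = true := by
  induction n with
  | zero => omega
  | succ n ih =>
    simp only [all, Bool.and_eq_true] at h
    rcases Nat.lt_succ_iff_lt_or_eq.1 hi with h3 | h3
    · exact ih h.2 h3
    · subst h3
      exact h.1

/-! ### Evaluation in a module -/

section

variable {M : Type} [AddCommMonoid M] (ro : ℕ → M → M)

/-- slot -/
def slotM (e : ℕ) (x : ℕ → M) : M := if src e < 9 then ro (phs e) (x (src e)) else 0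

/-- row -/
def rowM (r : ℕ) (x : ℕ → M) : M := slotM ro (s0 r) x + (slotM ro (s1 r) x + slotM ro (s2 r) x)

/-- letter -/
def stpM (p : Op) (x : ℕ → M) : ℕ → M := fun j =>
  if j < 8 then rowM ro (p.1 j) x else if p.2 then x 8 + ro 1 (x 8) else x 8

/-- word -/
def evM : List Op → (ℕ → M) → ℕ → M
  | [], x => x
  | p :: w, x => stpM ro p (evM w x)

theorem phs_lt (e : ℕ) : phs e < 4 := by
  have : phs e = Nat.shiftRight e 4 &&& 3 := rfl
  rw [this]
  have := Nat.and_le_right (n := Nat.shiftRight e 4) (m := 3)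
  omega

theorem slotM_congr {e : ℕ} {x y : ℕ → M} (h : ∀ n < 9, x n = y n) : slotM ro e x = slotM ro e y := by
  unfold slotM
  split_ifs with h1
  · rw [h _ h1]
  · rfl

theorem stpM_congr {p : Op} {x y : ℕ → M} (h : ∀ n < 9, x n = y n) (j : ℕ) :
    stpM ro p x j = stpM ro p y j := by
  unfold stpM rowM
  rw [slotM_congr ro h, slotM_congr ro h, slotM_congr ro h, h 8 (by norm_num)]

theorem evM_congr {w : List Op} {x y : ℕ → M} (h : ∀ n < 9, x n = y n) :
    ∀ n < 9, evM ro w x n = evM ro w y n := by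
  induction w with
  | nil => exact h
  | cons p w ih => exact fun n _ => stpM_congr ro ih n

theorem evM_append (w w' : List Op) (x : ℕ → M) : evM ro (w ++ w') x = evM ro w (evM ro w' x) := by
  induction w with
  | nil => rfl
  | cons p w ih => rw [List.cons_append, evM, ih]; rfl

variable {M' : Type} [AddCommMonoid M'] (ro' : ℕ → M' → M')

theorem slotM_hom (ψ : M →+ M') (h : ∀ k < 4, ∀ z, ψ (ro k z) = ro' k (ψ z)) (e : ℕ) (x : ℕ → M) :
    slotM ro' e (fun n => ψ (x n)) = ψ (slotM ro e x) := by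
  unfold slotM
  split_ifs with h1
  · rw [h _ (phs_lt e)]
  · rw [map_zero]

theorem evM_hom (ψ : M →+ M') (h : ∀ k < 4, ∀ z, ψ (ro k z) = ro' k (ψ z)) (w : List Op)
    (x : ℕ → M) (j : ℕ) : evM ro' w (fun n => ψ (x n)) j = ψ (evM ro w x j) := by
  induction w generalizing j with
  | nil => rfl
  | cons p w ih =>
    have ih' : evM ro' w (fun n => ψ (x n)) = fun n => ψ (evM ro w x n) := funext ih
    rw [evM, evM, ih']
    unfold stpM rowM
    simp only [slotM_hom ro ro' ψ h]
    split_ifs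
    · rw [map_add, map_add]
    · rw [map_add, h 1 (by norm_num)]
    · rfl

end

/-! ### The lists -/

theorem slot_eq (e : ℕ) (l : List Gi) : slot e l = slotM rot e (gt l) := by
  unfold slot slotM
  rcases hb : Nat.blt (src e) 9 with _ | _
  · rw [cond_false, if_neg]
    · rfl
    · intro h
      rw [← Nat.blt_eq, hb] at h
      cases h
  · rw [cond_true, if_pos]
    rw [← Nat.blt_eq]
    exact hb

theorem rowv_eq (r : ℕ) (l : List Gi) : rowv r l = rowM rot r (gt l) := by
  unfold rowv rowM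
  rw [slot_eq, slot_eq, slot_eq]
  rfl

theorem gt_stp (p : Op) (l : List Gi) {j : ℕ} (hj : j < 9) :
    gt (stp p.1 p.2 l) j = stpM rot p (gt l) j := by
  unfold stp stpM
  have h8 : scl p.2 (gt l 8) = if p.2 = true then gt l 8 + rot 1 (gt l 8) else gt l 8 := by
    unfold scl
    rcases p.2 with _ | _
    · rfl
    · rw [cond_true, if_pos rfl]
      refine Prod.ext ?_ ?_
      · change (gt l 8).1 + ((rot 1 (gt l 8)).1 + 0) = (gt l 8).1 + (rot 1 (gt l 8)).1
        rw [add_zero]
      · change (gt l 8).2 + ((rot 1 (gt l 8)).2 + 0) = (gt l 8).2 + (rot 1 (gt l 8)).2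
        rw [add_zero]
  rw [h8]
  interval_cases j
  · exact rowv_eq _ _
  · exact rowv_eq _ _
  · exact rowv_eq _ _
  · exact rowv_eq _ _
  · exact rowv_eq _ _
  · exact rowv_eq _ _
  · exact rowv_eq _ _
  · exact rowv_eq _ _
  · rfl

theorem gt_ev (w : List Op) (l : List Gi) : ∀ j < 9, gt (ev w l) j = evM rot w (gt l) j := by
  induction w with
  | nil => exact fun j _ => rfl
  | cons p w ih =>
    intro j hj
    rw [ev, gt_stp p _ hj, evM]
    exact stpM_congr rot ih j

/-! ### Digits -/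

theorem digits {B : ℤ} : ∀ (n : ℕ) (d : ℕ → ℤ), (∀ k < n, |d k| < B) →
    ∑ k ∈ Finset.range n, B ^ k * d k = 0 → ∀ k < n, d k = 0 := by
  intro n
  induction n with
  | zero => intro d _ _ k hk; omega
  | succ n ih =>
    intro d hd h k hk
    have hB : B ≠ 0 := by
      have := hd 0 (by omega)
      have := abs_nonneg (d 0)
      omega
    rw [Finset.sum_range_succ'] at h
    have e : ∑ k ∈ Finset.range n, B ^ (k + 1) * d (k + 1) =
        B * ∑ k ∈ Finset.range n, B ^ k * d (k + 1) := by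
      rw [Finset.mul_sum]
      refine Finset.sum_congr rfl fun k _ => ?_
      ring
    rw [e, pow_zero, one_mul] at h
    have h0 : d 0 = 0 := by
      apply Int.eq_zero_of_abs_lt_dvd (m := B) ⟨-∑ k ∈ Finset.range n, B ^ k * d (k + 1), ?_⟩
        (hd 0 (by omega))
      linear_combination h
    rw [h0, add_zero] at h
    have h1 := (mul_eq_zero.1 h).resolve_left hB
    rcases k with _ | k
    · exact h0
    · exact ih (fun k => d (k + 1)) (fun k hk => hd (k + 1) (by omega)) h1 k (by omega)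

/-! ### All columns at once -/

/-- rotation of a family -/
def rotF (k : ℕ) (z : ℕ → Gi) : ℕ → Gi := fun i => rot k (z i)

/-- the unit vectors -/
def fr : ℕ → ℕ → Gi := fun j k => if j = k then (1, 0) else (0, 0)

/-- the matrix of a word -/
def Wm (w : List Op) (j k : ℕ) : Gi := evM rotF w fr j k

theorem rot_le {C : ℤ} {k : ℕ} {x : Gi} (h : |x.1| ≤ C ∧ |x.2| ≤ C) :
    |(rot k x).1| ≤ C ∧ |(rot k x).2| ≤ C := by
  unfold rot
  have e1 : ∀ z : ℤ, |Int.neg z| = |z| := fun z => abs_neg z
  split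
  · exact h
  · exact ⟨by rw [e1]; exact h.2, h.1⟩
  · exact ⟨by rw [e1]; exact h.1, by rw [e1]; exact h.2⟩
  · exact ⟨h.2, by rw [e1]; exact h.1⟩

theorem slot_le {C : ℤ} (hC : 0 ≤ C) {e : ℕ} {x : ℕ → ℕ → Gi}
    (h : ∀ j k, |(x j k).1| ≤ C ∧ |(x j k).2| ≤ C) (k : ℕ) :
    |(slotM rotF e x k).1| ≤ C ∧ |(slotM rotF e x k).2| ≤ C := by
  unfold slotM
  split_ifs
  · exact rot_le (h _ k)
  · simpa using hC

theorem wm_le (w : List Op) : ∀ j k, |(Wm w j k).1| ≤ 3 ^ w.length ∧ |(Wm w j k).2| ≤ 3 ^ w.length := by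
  induction w with
  | nil =>
    intro j k
    change |(fr j k).1| ≤ 3 ^ 0 ∧ |(fr j k).2| ≤ 3 ^ 0
    unfold fr
    split_ifs <;> simp
  | cons p w ih =>
    intro j k
    have hC : (0 : ℤ) ≤ 3 ^ w.length := by positivity
    have e3 : (3 : ℤ) ^ (p :: w).length = 3 * 3 ^ w.length := by
      rw [List.length_cons, pow_succ]; ring
    rw [e3]
    change |(stpM rotF p (evM rotF w fr) j k).1| ≤ _ ∧ |(stpM rotF p (evM rotF w fr) j k).2| ≤ _
    unfold stpM
    split_ifs
    · obtain ⟨a1, a2⟩ := slot_le hC (e := s0 (p.1 j)) ih k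
      obtain ⟨b1, b2⟩ := slot_le hC (e := s1 (p.1 j)) ih k
      obtain ⟨c1, c2⟩ := slot_le hC (e := s2 (p.1 j)) ih k
      constructor
      · refine (abs_add_le _ _).trans ?_
        refine (add_le_add le_rfl (abs_add_le _ _)).trans ?_
        change |(slotM rotF (s0 (p.1 j)) (Wm w) k).1| + (|(slotM rotF (s1 (p.1 j)) (Wm w) k).1| +
          |(slotM rotF (s2 (p.1 j)) (Wm w) k).1|) ≤ _
        linarith
      · refine (abs_add_le _ _).trans ?_
        refine (add_le_add le_rfl (abs_add_le _ _)).trans ?_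
        change |(slotM rotF (s0 (p.1 j)) (Wm w) k).2| + (|(slotM rotF (s1 (p.1 j)) (Wm w) k).2| +
          |(slotM rotF (s2 (p.1 j)) (Wm w) k).2|) ≤ _
        linarith
    · obtain ⟨a1, a2⟩ := ih 8 k
      obtain ⟨b1, b2⟩ := rot_le (k := 1) (ih 8 k)
      constructor
      · refine (abs_add_le _ _).trans ?_
        change |(Wm w 8 k).1| + |(rot 1 (Wm w 8 k)).1| ≤ _
        linarith
      · refine (abs_add_le _ _).trans ?_
        change |(Wm w 8 k).2| + |(rot 1 (Wm w 8 k)).2| ≤ _
        linarith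
    · obtain ⟨a1, a2⟩ := ih 8 k
      exact ⟨a1.trans (by linarith), a2.trans (by linarith)⟩

theorem rot_smul (k : ℕ) (c : ℤ) (z : Gi) : c • rot k z = rot k (c • z) := by
  unfold rot
  split
  · rfl
  · exact Prod.ext (mul_neg c z.2) rfl
  · exact Prod.ext (mul_neg c z.1) (mul_neg c z.2)
  · exact Prod.ext rfl (mul_neg c z.1)

theorem rot_add (k : ℕ) (y z : Gi) : rot k (y + z) = rot k y + rot k z := by
  unfold rot
  split
  · rfl
  · exact Prod.ext (neg_add y.2 z.2) rfl
  · exact Prod.ext (neg_add y.1 z.1) (neg_add y.2 z.2)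
  · exact Prod.ext rfl (neg_add y.1 z.1)

/-- linear combination with integer coefficients -/
def psi (ω : ℕ → ℤ) : (ℕ → Gi) →+ Gi where
  toFun z := ∑ k ∈ Finset.range 9, ω k • z k
  map_zero' := by simp
  map_add' y z := by simp [Finset.sum_add_distrib]

theorem rot_sum (k : ℕ) (s : Finset ℕ) (f : ℕ → Gi) : rot k (∑ i ∈ s, f i) = ∑ i ∈ s, rot k (f i) := by
  classical
  induction s using Finset.induction_on with
  | empty =>
    simp only [Finset.sum_empty]
    unfold rot
    split <;> rfl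
  | insert a s ha ih => rw [Finset.sum_insert ha, Finset.sum_insert ha, rot_add, ih]

theorem psi_rot (ω : ℕ → ℤ) (k : ℕ) (z : ℕ → Gi) : psi ω (rotF k z) = rot k (psi ω z) := by
  change ∑ i ∈ Finset.range 9, ω i • rot k (z i) = rot k (∑ i ∈ Finset.range 9, ω i • z i)
  rw [rot_sum]
  refine Finset.sum_congr rfl fun i _ => ?_
  exact rot_smul k (ω i) (z i)

theorem evM_psi (w : List Op) (ω : ℕ → ℤ) {x : ℕ → Gi} (hx : ∀ j < 9, x j = (ω j, 0)) {j : ℕ}
    (hj : j < 9) : evM rot w x j = ∑ k ∈ Finset.range 9, ω k • Wm w j k := by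
  have h := evM_hom rotF rot (psi ω) (fun k _ z => psi_rot ω k z) w fr j
  have e : ∀ n < 9, x n = psi ω (fr n) := by
    intro n hn
    rw [hx n hn]
    change _ = ∑ k ∈ Finset.range 9, ω k • fr n k
    rw [Finset.sum_eq_single n]
    · simp [fr]
    · intro k _ hk
      simp [fr, Ne.symm hk]
    · intro h
      exact absurd (Finset.mem_range.2 hn) h
  rw [evM_congr rot e j hj, h]
  rfl

section

variable {K : Type} [Field K] (ι : K)

/-- the value of a Gaussian integer -/
def val (z : Gi) : K := (z.1 : K) + (z.2 : K) * ι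

/-- multiplication by powers of `i` -/
def roK (k : ℕ) (y : K) : K := ι ^ k * y

theorem val_rot (hι : ι ^ 2 = -1) {k : ℕ} (hk : k < 4) (z : Gi) : val ι (rot k z) = roK ι k (val ι z) := by
  have e : ∀ z : ℤ, ((Int.neg z : ℤ) : K) = -(z : K) := fun z => Int.cast_neg z
  interval_cases k
  · simp [rot, roK]
  · simp only [rot, roK, val, e]
    linear_combination (-(z.2 : K)) * hι
  · simp only [rot, roK, val, e]
    linear_combination (-(z.1 : K) - z.2 * ι) * hι
  · simp only [rot, roK, val, e]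
    linear_combination (-(z.1 : K) * ι - z.2 * (ι ^ 2 - 1)) * hι

/-- linear combination with coefficients in `K` -/
def phi (x : ℕ → K) : (ℕ → Gi) →+ K where
  toFun z := ∑ k ∈ Finset.range 9, val ι (z k) * x k
  map_zero' := by simp [val]
  map_add' y z := by
    rw [← Finset.sum_add_distrib]
    refine Finset.sum_congr rfl fun k _ => ?_
    simp only [Pi.add_apply, val, Prod.fst_add, Prod.snd_add]
    push_cast
    ring

theorem evM_phi (hι : ι ^ 2 = -1) (w : List Op) (x : ℕ → K) {j : ℕ} (hj : j < 9) :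
    evM (roK ι) w x j = ∑ k ∈ Finset.range 9, val ι (Wm w j k) * x k := by
  have h := evM_hom rotF (roK ι) (phi ι x) (fun k hk z => by
    change ∑ i ∈ Finset.range 9, val ι (rot k (z i)) * x i =
      roK ι k (∑ i ∈ Finset.range 9, val ι (z i) * x i)
    unfold roK
    rw [Finset.mul_sum]
    refine Finset.sum_congr rfl fun i _ => ?_
    rw [val_rot ι hι hk, roK]
    ring) w fr j
  have e : ∀ n < 9, x n = phi ι x (fr n) := by
    intro n hn
    change _ = ∑ k ∈ Finset.range 9, val ι (fr n k) * x k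
    rw [Finset.sum_eq_single n]
    · simp [fr, val]
    · intro k _ hk
      simp [fr, val, Ne.symm hk]
    · intro h
      exact absurd (Finset.mem_range.2 hn) h
  rw [evM_congr (roK ι) e j hj, h]
  rfl

end

end Pool.Agent.H.MP_ee9c6f_al.E3Rep
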