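import Pool.Agent.H.MP_ee9c6f_al.E3Rep.LinC

/-!
MP_ee9c6f_al, genus 3 (helper77). The blocks of the generators 4, 5, 6 normalise the Pauli group.
-/

set_option autoImplicit false

namespace Pool.Agent.H.MP_ee9c6f_al.E3Rep

theorem nmc_4 : ∀ q : Fin 28, ∀ g : Fin 6, nmc 4 q g = true := by decide +kernel

theorem nmc_5 : ∀ q : Fin 28, ∀ g : Fin 6, nmc 5 q g = true := by decide +kernel

theorem nmc_6 : ∀ q : Fin 28, ∀ g : Fin 6, nmc 6 q g = true := by decide +kernel

end Pool.Agent.H.MP_ee9c6f_al.E3Rep
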