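import Pool.Agent.H.MP_ee9c6f_al.E3Rep.LinD
import Pool.Agent.H.MP_ee9c6f_al.E3Rep.LinE
import Pool.Agent.H.MP_ee9c6f_al.E3Rep.Blk

/-!
MP_ee9c6f_al, genus 3 (helper77). The maps of the generators are affine on the fibres, and their linear
parts lie in a finite group.
-/

set_option autoImplicit false

namespace Pool.Agent.H.MP_ee9c6f_al.E3Rep

open Matrix

theorem nmc_ok (c : Fin 7) (q : Fin 28) (g : Fin 6) : nmc c q g = true := by
  obtain ⟨c, hc⟩ := c
  interval_cases c
  · exact nmc_0 q g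
  · exact nmc_1 q g
  · exact nmc_2 q g
  · exact nmc_3 q g
  · exact nmc_4 q g
  · exact nmc_5 q g
  · exact nmc_6 q g

section

variable {K : Type} [Field K] [CharZero K] (ι : K)

/-- the linear part of an operation -/
def AM (p : Op) : Matrix (Fin 8) (Fin 8) K :=
  Matrix.of fun j k => (kap ι p.2)⁻¹ * val ι (Wm [p] j k)

/-- the translation part of an operation -/
def tM (p : Op) : Fin 8 → K := fun j => (kap ι p.2)⁻¹ * val ι (Wm [p] j 8)

theorem FO_eq (hι : ι ^ 2 = -1) (p : Op) (v : Fin 8 → K) : FO ι p v = AM ι p *ᵥ v + tM ι p := by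
  funext j
  have h := evM_phi ι hι [p] (ext v) (j := j) (by omega)
  have h' : stpM (roK ι) p (ext v) j = ∑ k ∈ Finset.range 9, val ι (Wm [p] j k) * ext v k := h
  rw [FO, h', Finset.sum_range_succ, Finset.sum_range, Pi.add_apply, mul_add]
  congr 1
  · rw [Matrix.mulVec, dotProduct, Finset.mul_sum]
    refine Finset.sum_congr rfl fun k _ => ?_
    simp only [AM, Matrix.of_apply, ext, k.2, dif_pos]
    ring
  · simp [tM, ext]

/-- the scale of a word -/
def kw (w : List Op) : K := (w.map fun p => kap ι p.2).prod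

theorem evM_ext0 (hι : ι ^ 2 = -1) (w : List Op) (v : Fin 8 → K) :
    evM (roK ι) w (ext0 v) 8 = 0 ∧ ∀ j : Fin 8, evM (roK ι) w (ext0 v) j =
      kw ι w * ((w.map (AM ι)).prod *ᵥ v) j := by
  induction w with
  | nil =>
    refine ⟨?_, fun j => ?_⟩
    · change ext0 v 8 = 0
      simp [ext0]
    · change ext0 v j = _
      simp [ext0, kw]
  | cons p w ih =>
    obtain ⟨h1, h2⟩ := ih
    set u : Fin 8 → K := (w.map (AM ι)).prod *ᵥ v with hu
    have e1 : ∀ n < 9, evM (roK ι) w (ext0 v) n = kw ι w * ext0 u n := by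
      intro n hn
      by_cases hn8 : n < 8
      · rw [ext0, dif_pos hn8]
        exact h2 ⟨n, hn8⟩
      · have : n = 8 := by omega
        subst this
        rw [h1]
        simp [ext0]
    refine ⟨?_, fun j => ?_⟩
    · change stpM (roK ι) p (evM (roK ι) w (ext0 v)) 8 = 0
      rw [stpM_eight, h1, mul_zero]
    · have e2 : evM (roK ι) (p :: w) (ext0 v) j = kw ι w * stpM (roK ι) p (ext0 u) j := by
        rw [← stpM_mul]
        exact stpM_congr (roK ι) e1 j
      have e3 : stpM (roK ι) p (ext0 u) j = kap ι p.2 * (AM ι p *ᵥ u) j := by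
        have h := evM_phi ι hι [p] (ext0 u) (j := j) (by omega)
        have h' : stpM (roK ι) p (ext0 u) j =
          ∑ k ∈ Finset.range 9, val ι (Wm [p] j k) * ext0 u k := h
        rw [h', Finset.sum_range_succ, Finset.sum_range]
        have e8 : ext0 u 8 = 0 := by simp [ext0]
        rw [e8, mul_zero, add_zero, Matrix.mulVec, dotProduct, Finset.mul_sum]
        refine Finset.sum_congr rfl fun k _ => ?_
        simp only [AM, Matrix.of_apply, ext0, k.2, dif_pos]
        have := kap_ne ι hι p.2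
        field_simp
      rw [e2, e3, List.map_cons, List.prod_cons, ← Matrix.mulVec_mulVec, ← hu]
      simp only [kw, List.map_cons, List.prod_cons]
      ring

theorem AM_of_wm (hι : ι ^ 2 = -1) {w w' : List Op} (h : ∀ j < 8, ∀ k < 8, Wm w j k = Wm w' j k) :
    kw ι w • (w.map (AM ι)).prod = kw ι w' • (w'.map (AM ι)).prod := by
  apply Matrix.ext_of_mulVec_single
  intro i
  funext j
  set v : Fin 8 → K := Pi.single i 1 with hv
  have e : evM (roK ι) w (ext0 v) j = evM (roK ι) w' (ext0 v) j := by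
    rw [evM_phi ι hι _ _ (by omega), evM_phi ι hι _ _ (by omega), Finset.sum_range_succ,
      Finset.sum_range_succ _ 8]
    have e8 : ext0 v 8 = 0 := by simp [ext0]
    rw [e8, mul_zero, mul_zero]
    congr 1
    refine Finset.sum_congr rfl fun k hk => ?_
    rw [h j j.2 k (Finset.mem_range.1 hk)]
  rw [(evM_ext0 ι hι w v).2 j, (evM_ext0 ι hι w' v).2 j] at e
  rw [Matrix.smul_mulVec, Matrix.smul_mulVec, Pi.smul_apply, Pi.smul_apply, smul_eq_mul, smul_eq_mul]
  exact e

/-! ### The Pauli matrices -/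

theorem wm_pa : ∀ k : Fin 4, ∀ a b j l : Fin 8, Wm [(paR k a b, false)] j l =
    if l = xr j a then rot ((k.val + 2 * pr b l) % 4) (1, 0) else (0, 0) := by
  decide +kernel

theorem AM_pa (hι : ι ^ 2 = -1) (k : Fin 4) (a b : Fin 8) :
    AM ι (paR k a b, false) = PM ι k a b := by
  ext j l
  have h4 : ι ^ 4 = 1 := by linear_combination (ι ^ 2 - 1) * hι
  simp only [AM, Matrix.of_apply, PM, wm_pa]
  have hk : kap ι false = 1 := by simp [kap]
  rw [hk, inv_one, one_mul]
  split_ifs with h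
  · rw [val_rot ι hι (Nat.mod_lt _ (by norm_num)), sn_pow ι hι, ← pow_add, roK]
    have : ι ^ (k.val + 2 * pr b l) = ι ^ ((k.val + 2 * pr b l) % 4) := by
      conv_lhs => rw [← Nat.mod_add_div (k.val + 2 * pr b l) 4, pow_add, pow_mul, h4, one_pow,
        mul_one]
    rw [this]
    simp [val]
  · simp [val]

theorem pe_eq (e : ℕ) : ∃ (k : Fin 4) (a b : Fin 8), pe e = paR k a b := by
  refine ⟨⟨Nat.land e 3, ?_⟩, ⟨Nat.land (Nat.shiftRight e 2) 7, ?_⟩,
    ⟨Nat.land (Nat.shiftRight e 5) 7, ?_⟩, rfl⟩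
  · exact Nat.lt_of_le_of_lt (Nat.and_le_right (n := e) (m := 3)) (by norm_num)
  · exact Nat.lt_of_le_of_lt (Nat.and_le_right (n := Nat.shiftRight e 2) (m := 7)) (by norm_num)
  · exact Nat.lt_of_le_of_lt (Nat.and_le_right (n := Nat.shiftRight e 5) (m := 7)) (by norm_num)

theorem AM_norm (hι : ι ^ 2 = -1) (c : Fin 7) (q : Fin 28) (g : Fin 6) :
    ∃ (k : ℕ) (a b : Fin 8), AM ι (bl c q) * AM ι (pe (gc g), false) =
      PM ι k a b * AM ι (bl c q) := by
  have h := nmc_ok c q g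
  unfold nmc at h
  rw [fN_eq, evk_eq, evk_eq] at h
  obtain ⟨k, a, b, hk⟩ := pe_eq (nc c q g)
  refine ⟨k, a, b, ?_⟩
  have h1 := AM_of_wm ι hι (w := [bl c q, (pe (gc g), false)])
    (w' := [(pe (nc c q g), false), bl c q]) (fun j hj l hl =>
      eq_wm (by simp) (by simp) (by omega) (eqG_sound (all_sound h hj)) hl)
  have e1 : kw ι [bl c q, (pe (gc g), false)] = kap ι (bl c q).2 := by
    simp [kw, kap]
  have e2 : kw ι [(pe (nc c q g), false), bl c q] = kap ι (bl c q).2 := by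
    simp [kw, kap]
  rw [e1, e2] at h1
  have h2 := smul_right_injective _ (kap_ne ι hι (bl c q).2) h1
  simp only [List.map_cons, List.map_nil, List.prod_cons, List.prod_nil, mul_one] at h2
  rw [h2, hk, AM_pa ι hι]

theorem AM_gen (hι : ι ^ 2 = -1) (c : Fin 7) (q : Fin 28) (k : ℕ) (a b : Fin 8) :
    ∃ (k' : ℕ) (a' b' : Fin 8), AM ι (bl c q) * PM ι k a b = PM ι k' a' b' * AM ι (bl c q) := by
  refine PM_gen ι hι {X | ∃ (k' : ℕ) (a' b' : Fin 8), AM ι (bl c q) * X =
    PM ι k' a' b' * AM ι (bl c q)} ?_ ?_ ?_ ?_ k a b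
  · rintro X ⟨k, a, b, hX⟩ Y ⟨k', a', b', hY⟩
    refine ⟨k + k' + 2 * pr b a', xr a a', xr b b', ?_⟩
    rw [← mul_assoc, hX, mul_assoc, hY, ← mul_assoc, PM_mul ι hι]
  · intro k
    refine ⟨k, 0, 0, ?_⟩
    rw [PM_zero, Matrix.mul_smul, mul_one, Matrix.smul_mul, one_mul]
  · rintro a (rfl | rfl | rfl)
    · obtain ⟨k, a, b, h⟩ := AM_norm ι hι c q 0
      exact ⟨k, a, b, by rw [← h, show (PM ι 0 1 0) = AM ι (pe (gc (0 : Fin 6)), false) from (AM_pa ι hι 0 1 0).symm]⟩
    · obtain ⟨k, a, b, h⟩ := AM_norm ι hι c q 1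
      exact ⟨k, a, b, by rw [← h, show (PM ι 0 2 0) = AM ι (pe (gc (1 : Fin 6)), false) from (AM_pa ι hι 0 2 0).symm]⟩
    · obtain ⟨k, a, b, h⟩ := AM_norm ι hι c q 2
      exact ⟨k, a, b, by rw [← h, show (PM ι 0 4 0) = AM ι (pe (gc (2 : Fin 6)), false) from (AM_pa ι hι 0 4 0).symm]⟩
  · rintro b (rfl | rfl | rfl)
    · obtain ⟨k, a, b, h⟩ := AM_norm ι hι c q 3
      exact ⟨k, a, b, by rw [← h, show (PM ι 0 0 1) = AM ι (pe (gc (3 : Fin 6)), false) from (AM_pa ι hι 0 0 1).symm]⟩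
    · obtain ⟨k, a, b, h⟩ := AM_norm ι hι c q 4
      exact ⟨k, a, b, by rw [← h, show (PM ι 0 0 2) = AM ι (pe (gc (4 : Fin 6)), false) from (AM_pa ι hι 0 0 2).symm]⟩
    · obtain ⟨k, a, b, h⟩ := AM_norm ι hι c q 5
      exact ⟨k, a, b, by rw [← h, show (PM ι 0 0 4) = AM ι (pe (gc (5 : Fin 6)), false) from (AM_pa ι hι 0 0 4).symm]⟩

/-! ### The blocks have order `4` -/

theorem pw_wm (c : Fin 7) (q : Fin 28) : ∀ j < 8, ∀ k < 8,
    Wm [bl c q, bl c q, bl c q, bl c q] j k = if k = j then (bif kp c then (-4, 0) else (1, 0)) else 0 := by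
  intro j hj k hk
  have h := pwc_ok c q
  unfold pwc at h
  rw [evk_eq] at h
  have h1 := eqG_sound (all_sound h hj)
  rw [ml_eq, ev_pk _ 0 (by omega), Finset.sum_range_succ] at h1
  have e8 : om 0 8 = 0 := by simp [om]
  rw [e8, zero_smul, add_zero] at h1
  set z : Gi := bif kp c then (-4, 0) else (1, 0) with hz
  have h2 : ∑ k ∈ Finset.range 8, (BB : ℤ) ^ k • (Wm [bl c q, bl c q, bl c q, bl c q] j k -
      if k = j then z else 0) = 0 := by
    simp only [smul_sub, Finset.sum_sub_distrib]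
    have e1 : ∑ k ∈ Finset.range 8, (BB : ℤ) ^ k • Wm [bl c q, bl c q, bl c q, bl c q] j k =
        (BB : ℤ) ^ j • z := by
      rw [← h1]
      refine Finset.sum_congr rfl fun k hk => ?_
      have : k ≠ 8 := by
        have := Finset.mem_range.1 hk
        omega
      rw [om, if_neg this]
    have e2 : ∑ k ∈ Finset.range 8, (BB : ℤ) ^ k • (if k = j then z else 0) = (BB : ℤ) ^ j • z := by
      rw [Finset.sum_eq_single j]
      · rw [if_pos rfl]
      · intro k _ hk
        rw [if_neg hk, smul_zero]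
      · intro h
        exact absurd (Finset.mem_range.2 hj) h
    rw [e1, e2, sub_self]
  have h4 := digitsG 8 _ (fun k _ => ?_) h2 k hk
  · exact sub_eq_zero.1 h4
  · have hb := BB_bd [bl c q, bl c q, bl c q, bl c q] (by simp)
    obtain ⟨a1, a2⟩ := wm_le [bl c q, bl c q, bl c q, bl c q] j k
    have hC : (0 : ℤ) ≤ 3 ^ ([bl c q, bl c q, bl c q, bl c q] : List Op).length := by positivity
    have hzz : |(if k = j then z else 0 : Gi).1| ≤ 4 ∧ |(if k = j then z else 0 : Gi).2| ≤ 4 := by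
      split_ifs
      · rw [hz]
        rcases kp c with _ | _
        · simp
        · simp
      · simp
    have h0 : (4 : ℤ) ≤ 2 ^ 200 := by norm_num
    constructor
    · refine lt_of_le_of_lt (abs_sub _ _) ?_
      linarith [hzz.1]
    · refine lt_of_le_of_lt (abs_sub _ _) ?_
      linarith [hzz.2]

theorem AM_pow (hι : ι ^ 2 = -1) (c : Fin 7) (q : Fin 28) : AM ι (bl c q) ^ 4 = 1 := by
  have h4 : (kap ι (kp c)) ^ 4 = val ι (bif kp c then (-4, 0) else (1, 0)) := by
    rcases kp c with _ | _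
    · simp [kap, val]
    · simp only [kap, if_true, cond_true, val]
      push_cast
      linear_combination (ι ^ 2 + 4 * ι + 5) * hι
  apply Matrix.ext_of_mulVec_single
  intro i
  funext j
  set v : Fin 8 → K := Pi.single i 1 with hv
  have e := (evM_ext0 ι hι [bl c q, bl c q, bl c q, bl c q] v).2 j
  rw [evM_phi ι hι _ _ (by omega), Finset.sum_range_succ] at e
  have e8 : ext0 v 8 = 0 := by simp [ext0]
  have e5 : ∑ k ∈ Finset.range 8, val ι (Wm [bl c q, bl c q, bl c q, bl c q] j k) * ext0 v k =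
      val ι (bif kp c then (-4, 0) else (1, 0)) * v j := by
    rw [Finset.sum_eq_single (j : ℕ)]
    · rw [pw_wm c q j j.2 j j.2, if_pos rfl, ext0, dif_pos j.2]
    · intro k hk hkj
      rw [pw_wm c q j j.2 k (Finset.mem_range.1 hk), if_neg hkj]
      simp [val]
    · intro h
      exact absurd (Finset.mem_range.2 j.2) h
  rw [e8, mul_zero, add_zero, e5] at e
  have ek : kw ι [bl c q, bl c q, bl c q, bl c q] = (kap ι (kp c)) ^ 4 := by
    simp only [kw, List.map_cons, List.map_nil, List.prod_cons, List.prod_nil, bl]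
    ring
  have ep : (List.map (AM ι) [bl c q, bl c q, bl c q, bl c q]).prod = AM ι (bl c q) ^ 4 := by
    simp only [List.map_cons, List.map_nil, List.prod_cons, List.prod_nil, mul_one]
    rw [pow_succ, pow_succ, pow_succ, pow_one, mul_assoc, mul_assoc]
  rw [ek, ep, h4] at e
  have hne : val ι (bif kp c then (-4, 0) else (1, 0)) ≠ 0 := by
    rw [← h4]
    exact pow_ne_zero _ (kap_ne ι hι _)
  rw [Matrix.one_mulVec]
  exact (mul_left_cancel₀ hne e).symm

end

section

variable {K : Type} [Field K] [CharZero K] {ι : K}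

/-- the finite group which contains the linear parts -/
def NN (hι : ι ^ 2 = -1) : Subgroup (GL (Fin 8) K) := Nrm (PH ι hι) 4

instance NN_finite (hι : ι ^ 2 = -1) : Finite (NN hι) :=
  nrm_finite (PH ι hι) (PH_scalar ι hι) (by norm_num)

theorem AM_mem (hι : ι ^ 2 = -1) (c : Fin 7) (q : Fin 28) :
    ∃ A ∈ NN hι, (A : Matrix (Fin 8) (Fin 8) K) = AM ι (bl c q) := by
  have h4 := AM_pow ι hι c q
  have h1 : AM ι (bl c q) * AM ι (bl c q) ^ 3 = 1 := by rw [← h4, ← pow_succ']
  have h2 : AM ι (bl c q) ^ 3 * AM ι (bl c q) = 1 := by rw [← h4, ← pow_succ]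
  let A : GL (Fin 8) K := ⟨AM ι (bl c q), AM ι (bl c q) ^ 3, h1, h2⟩
  refine ⟨A, ?_, rfl⟩
  unfold NN Nrm
  rw [Subgroup.mem_inf]
  constructor
  · haveI : Finite ((PH ι hι : Subgroup (GL (Fin 8) K)) : Set (GL (Fin 8) K)) :=
      inferInstanceAs (Finite (PH ι hι))
    apply Subgroup.mem_normalizer_fintype
    intro u hu
    obtain ⟨k, a, b, hu⟩ := hu
    obtain ⟨k', a', b', h⟩ := AM_gen ι hι c q k a b
    refine ⟨k', a', b', ?_⟩
    rw [Matrix.GeneralLinearGroup.coe_mul, Matrix.GeneralLinearGroup.coe_mul, hu]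
    change AM ι (bl c q) * PM ι k a b * AM ι (bl c q) ^ 3 = _
    rw [h, mul_assoc, h1, mul_one]
  · rw [MonoidHom.mem_ker, MonoidHom.comp_apply, powMonoidHom_apply, ← map_pow]
    have : A ^ 4 = 1 := Units.ext h4
    rw [this, map_one]

/-- the involution of the fibres -/
def sgp (c : Fin 7) : Equiv.Perm (Fin 28) where
  toFun q := ⟨sgn c q, (sgn_ok c c.2 q q.2).1⟩
  invFun q := ⟨sgn c q, (sgn_ok c c.2 q q.2).1⟩
  left_inv q := Fin.ext (sgn_ok c c.2 q q.2).2
  right_inv q := Fin.ext (sgn_ok c c.2 q q.2).2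

theorem PL_blk (hι : ι ^ 2 = -1) (c : Fin 7) : IsBlk (NN hι) (PL (K := K) hι c) := by
  refine ⟨sgp c, fun q => ?_⟩
  obtain ⟨A, hA, hAM⟩ := AM_mem hι c q
  refine ⟨A, hA, tM ι (bl c q), fun v => ?_⟩
  change (_, FO ι (bl c q) v) = _
  rw [FO_eq ι hι, hAM]
  rfl

end

end Pool.Agent.H.MP_ee9c6f_al.E3Rep
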