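import Pool.Agent.H.MP_ee9c6f_al.E3Rep.Wds

/-!
MP_ee9c6f_al, genus 3 (helper77). The hyperelliptic relator on the fibres 0, …, 13.
-/

set_option autoImplicit false

namespace Pool.Agent.H.MP_ee9c6f_al.E3Rep

theorem hp_0 : chkq lhp [] 0 = true := by decide +kernel

theorem hp_1 : chkq lhp [] 1 = true := by decide +kernel

theorem hp_2 : chkq lhp [] 2 = true := by decide +kernel

theorem hp_3 : chkq lhp [] 3 = true := by decide +kernel

theorem hp_4 : chkq lhp [] 4 = true := by decide +kernel

theorem hp_5 : chkq lhp [] 5 = true := by decide +kernel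

theorem hp_6 : chkq lhp [] 6 = true := by decide +kernel

theorem hp_7 : chkq lhp [] 7 = true := by decide +kernel

theorem hp_8 : chkq lhp [] 8 = true := by decide +kernel

theorem hp_9 : chkq lhp [] 9 = true := by decide +kernel

theorem hp_10 : chkq lhp [] 10 = true := by decide +kernel

theorem hp_11 : chkq lhp [] 11 = true := by decide +kernel

theorem hp_12 : chkq lhp [] 12 = true := by decide +kernel

theorem hp_13 : chkq lhp [] 13 = true := by decide +kernel

end Pool.Agent.H.MP_ee9c6f_al.E3Rep
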