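import Pool.Agent.H.MP_ee9c6f_al.E3Rep.Wds

/-!
MP_ee9c6f_al, genus 3 (helper77). The hyperelliptic relator on the fibres 14, …, 27.
-/

set_option autoImplicit false

namespace Pool.Agent.H.MP_ee9c6f_al.E3Rep

theorem hp_14 : chkq lhp [] 14 = true := by decide +kernel

theorem hp_15 : chkq lhp [] 15 = true := by decide +kernel

theorem hp_16 : chkq lhp [] 16 = true := by decide +kernel

theorem hp_17 : chkq lhp [] 17 = true := by decide +kernel

theorem hp_18 : chkq lhp [] 18 = true := by decide +kernel

theorem hp_19 : chkq lhp [] 19 = true := by decide +kernel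

theorem hp_20 : chkq lhp [] 20 = true := by decide +kernel

theorem hp_21 : chkq lhp [] 21 = true := by decide +kernel

theorem hp_22 : chkq lhp [] 22 = true := by decide +kernel

theorem hp_23 : chkq lhp [] 23 = true := by decide +kernel

theorem hp_24 : chkq lhp [] 24 = true := by decide +kernel

theorem hp_25 : chkq lhp [] 25 = true := by decide +kernel

theorem hp_26 : chkq lhp [] 26 = true := by decide +kernel

theorem hp_27 : chkq lhp [] 27 = true := by decide +kernel

end Pool.Agent.H.MP_ee9c6f_al.E3Rep
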