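import Pool.Agent.H.MP_ee9c6f_al.E3Rep.Wds

/-!
MP_ee9c6f_al, genus 3 (helper77). The other relators and the translation `z`.
-/

set_option autoImplicit false

namespace Pool.Agent.H.MP_ee9c6f_al.E3Rep

theorem la_0 : chkq lla [] 0 = true := by decide +kernel

theorem la_1 : chkq lla [] 1 = true := by decide +kernel

theorem la_2 : chkq lla [] 2 = true := by decide +kernel

theorem la_3 : chkq lla [] 3 = true := by decide +kernel

theorem la_4 : chkq lla [] 4 = true := by decide +kernel

theorem la_5 : chkq lla [] 5 = true := by decide +kernel

theorem la_6 : chkq lla [] 6 = true := by decide +kernel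

theorem la_7 : chkq lla [] 7 = true := by decide +kernel

theorem la_8 : chkq lla [] 8 = true := by decide +kernel

theorem la_9 : chkq lla [] 9 = true := by decide +kernel

theorem la_10 : chkq lla [] 10 = true := by decide +kernel

theorem la_11 : chkq lla [] 11 = true := by decide +kernel

theorem la_12 : chkq lla [] 12 = true := by decide +kernel

theorem la_13 : chkq lla [] 13 = true := by decide +kernel

theorem la_14 : chkq lla [] 14 = true := by decide +kernel

theorem la_15 : chkq lla [] 15 = true := by decide +kernel

theorem la_16 : chkq lla [] 16 = true := by decide +kernel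

theorem la_17 : chkq lla [] 17 = true := by decide +kernel

theorem la_18 : chkq lla [] 18 = true := by decide +kernel

theorem la_19 : chkq lla [] 19 = true := by decide +kernel

theorem la_20 : chkq lla [] 20 = true := by decide +kernel

theorem la_21 : chkq lla [] 21 = true := by decide +kernel

theorem la_22 : chkq lla [] 22 = true := by decide +kernel

theorem la_23 : chkq lla [] 23 = true := by decide +kernel

theorem la_24 : chkq lla [] 24 = true := by decide +kernel

theorem la_25 : chkq lla [] 25 = true := by decide +kernel

theorem la_26 : chkq lla [] 26 = true := by decide +kernel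

theorem la_27 : chkq lla [] 27 = true := by decide +kernel

theorem chk_lla : chk lla = true := by
  unfold chk
  simp only [all, la_0, la_1, la_2, la_3, la_4, la_5, la_6, la_7, la_8, la_9, la_10, la_11, la_12, la_13, la_14, la_15, la_16, la_17, la_18, la_19, la_20, la_21, la_22, la_23, la_24, la_25, la_26, la_27, Bool.and_self]

theorem chk_lch : chk lch = true := by decide +kernel

/-- do the curves with the numbers `i < j` meet? -/
def meetb (i j : ℕ) : Bool := (Nat.ble 1 i && Nat.beq (Nat.add i 1) j) || (Nat.beq i 0 && Nat.beq j 4)

/-- the relator of a pair of generators -/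
def lbc (i j : Fin 7) : Wd := bif meetb i.val j.val then lbr i j else lco i j

theorem chk_lbc : ∀ i : Fin 7, ∀ j : Fin 7, i < j → chk (lbc i j) = true := by
  decide +kernel

/-- the translation of `z` on the fibre `12` (times the scale) -/
def tz : List Gi := [(-4, 0), (0, -4), (0, 0), (0, 0), (0, -4), (4, 0), (0, 0), (0, 0)]

theorem chk_lz : chkq lz tz 12 = true := by decide +kernel

end Pool.Agent.H.MP_ee9c6f_al.E3Rep
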