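import Pool.Agent.H.MP_ee9c6f_al.E4.Gen
import Pool.Agent.H.MP_ee9c6f_al.E3Rep.Lin
import Pool.Agent.H.MP_ee9c6f_al.E3Rep.RelA
import Pool.Agent.H.MP_ee9c6f_al.E3Rep.RelB
import Pool.Agent.H.MP_ee9c6f_al.E3Rep.RelC

/-!
MP_ee9c6f_al, genus 3 (helper77, with the data of helper24 and helper78). The affine action of the
mapping class group of the closed surface of genus `3`, and a subgroup of finite index with a nonzero
homomorphism to the integers.
-/

set_option autoImplicit false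

namespace Pool.Agent.H.MP_ee9c6f_al.E3Rep

open Matrix

theorem mk_app (l l' : Wd) : FreeGroup.mk (l ++ l') = FreeGroup.mk l * FreeGroup.mk l' :=
  FreeGroup.mul_mk.symm

theorem mk_iv (l : Wd) : FreeGroup.mk (iv l) = (FreeGroup.mk l)⁻¹ := FreeGroup.inv_mk.symm

theorem mk_g1 (i : Fin 7) : FreeGroup.mk (g1 i) = E3.c i := rfl

theorem mk_lb0 : FreeGroup.mk lb0 = E3.b0 := by
  simp only [lb0, E3.b0, mk_app, mk_iv, mk_g1]

theorem mk_lb1 : FreeGroup.mk lb1 = E3.b1 := by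
  simp only [lb1, E3.b1, mk_app, mk_iv, mk_g1]

theorem mk_lb2 : FreeGroup.mk lb2 = E3.b2 := by
  simp only [lb2, E3.b2, mk_app, mk_iv, mk_g1, mk_lb1]

theorem mk_luu : FreeGroup.mk luu = E3.uu := by
  simp only [luu, E3.uu, mk_app, mk_iv, mk_g1, mk_lb1]

theorem mk_lb3 : FreeGroup.mk lb3 = E3.b3 := by
  simp only [lb3, E3.b3, mk_app, mk_iv, mk_g1, mk_luu]

theorem mk_lw1 : FreeGroup.mk lw1 = E3.w1 := by
  simp only [lw1, E3.w1, mk_app, mk_g1, mk_lb0]

theorem mk_ln3 : FreeGroup.mk ln3 = E3.n3 := by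
  simp only [ln3, E3.n3, mk_app, mk_iv, mk_g1, mk_lw1]

theorem mk_lhy : FreeGroup.mk lhy = E3.c 6 * E3.c 5 * E3.c 4 * E3.c 3 * E3.c 2 * E3.c 1 * E3.c 1 *
    E3.c 2 * E3.c 3 * E3.c 4 * E3.c 5 * E3.c 6 := by
  simp only [lhy, mk_app, mk_g1]

theorem mk_lch : FreeGroup.mk lch = (E3.c 1 * E3.c 2 * E3.c 3) ^ 4 * (E3.c 0 * E3.b0)⁻¹ := by
  have h4 : (E3.c 1 * E3.c 2 * E3.c 3) ^ 4 = (E3.c 1 * E3.c 2 * E3.c 3) *
      (E3.c 1 * E3.c 2 * E3.c 3) * (E3.c 1 * E3.c 2 * E3.c 3) * (E3.c 1 * E3.c 2 * E3.c 3) := by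
    rw [pow_succ, pow_succ, pow_succ, pow_one]
  simp only [lch, mk_app, mk_iv, mk_g1, mk_lb0, h4]

theorem mk_lla : FreeGroup.mk lla =
    (E3.c 0 * E3.b2 * E3.b1) * (E3.c 1 * E3.c 3 * E3.c 5 * E3.b3)⁻¹ := by
  simp only [lla, mk_app, mk_iv, mk_g1, mk_lb1, mk_lb2, mk_lb3]

theorem mk_lhp : FreeGroup.mk lhp = (E3.c 6 * E3.c 5 * E3.c 4 * E3.c 3 * E3.c 2 * E3.c 1 * E3.c 1 *
    E3.c 2 * E3.c 3 * E3.c 4 * E3.c 5 * E3.c 6) * E3.n3 * (E3.n3 * (E3.c 6 * E3.c 5 * E3.c 4 *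
      E3.c 3 * E3.c 2 * E3.c 1 * E3.c 1 * E3.c 2 * E3.c 3 * E3.c 4 * E3.c 5 * E3.c 6))⁻¹ := by
  simp only [lhp, mk_app, mk_iv, mk_lhy, mk_ln3]

theorem mk_lbc_meet {i j : Fin 7} (h : E3.Meet i j) :
    FreeGroup.mk (lbc i j) = E3.c i * E3.c j * E3.c i * (E3.c j * E3.c i * E3.c j)⁻¹ := by
  have hm : meetb i.val j.val = true := by
    revert h
    unfold E3.Meet
    revert i j
    decide
  simp only [lbc, hm, cond_true, lbr, mk_app, mk_iv, mk_g1]

theorem mk_lbc_disj {i j : Fin 7} (h : ¬ E3.Meet i j) :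
    FreeGroup.mk (lbc i j) = E3.c i * E3.c j * (E3.c j * E3.c i)⁻¹ := by
  have hm : meetb i.val j.val = false := by
    revert h
    unfold E3.Meet
    revert i j
    decide
  simp only [lbc, hm, cond_false, lco, mk_app, mk_iv, mk_g1]

theorem chk_lhp : chk lhp = true := by
  unfold chk
  simp only [all, hp_0, hp_1, hp_2, hp_3, hp_4, hp_5, hp_6, hp_7, hp_8, hp_9, hp_10, hp_11, hp_12,
    hp_13, hp_14, hp_15, hp_16, hp_17, hp_18, hp_19, hp_20, hp_21, hp_22, hp_23, hp_24, hp_25,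
    hp_26, hp_27, Bool.and_self]

theorem lbc_len : ∀ i j : Fin 7, (lbc i j).length ≤ 218 := by decide +kernel

section

variable {K : Type} [Field K] [CharZero K] {ι : K}

theorem rels_hold (hι : ι ^ 2 = -1) : ∀ r ∈ E3.modRels, FreeGroup.lift (PL (K := K) hι) r = 1 := by
  rintro r ((⟨i, j, hij, hm, rfl⟩ | ⟨i, j, hij, hm, rfl⟩) | hr)
  · rw [← mk_lbc_meet hm]
    exact lift_one_of_chk hι (lbc_len i j) (chk_lbc i j hij)
  · rw [← mk_lbc_disj hm]
    exact lift_one_of_chk hι (lbc_len i j) (chk_lbc i j hij)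
  · rcases hr with rfl | rfl | rfl
    · rw [← mk_lch]
      exact lift_one_of_chk hι (by decide +kernel) chk_lch
    · rw [← mk_lla]
      exact lift_one_of_chk hι (by decide +kernel) chk_lla
    · rw [← mk_lhp]
      exact lift_one_of_chk hι (by decide +kernel) chk_lhp

/-- the action -/
noncomputable def rho (hι : ι ^ 2 = -1) : E3.Mod3 →* Equiv.Perm (Fin 28 × (Fin 8 → K)) :=
  PresentedGroup.toGroup (rels_hold hι)

theorem rho_mk (hι : ι ^ 2 = -1) (x : FreeGroup (Fin 7)) :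
    rho (K := K) hι (PresentedGroup.mk E3.modRels x) = FreeGroup.lift (PL hι) x := rfl

theorem rho_blk (hι : ι ^ 2 = -1) (g : E3.Mod3) : IsBlk (NN hι) (rho (K := K) hι g) := by
  obtain ⟨x, rfl⟩ := PresentedGroup.mk_surjective E3.modRels g
  obtain ⟨w, rfl⟩ := Quot.exists_rep x
  change IsBlk (NN hι) (FreeGroup.lift (PL hι) (FreeGroup.mk w))
  rw [FreeGroup.lift_mk]
  induction w with
  | nil => exact isBlk_one _
  | cons p w ih =>
    rw [List.map_cons, List.prod_cons]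
    refine isBlk_mul ?_ ih
    obtain ⟨c, _ | _⟩ := p
    · exact isBlk_inv (PL_blk hι c)
    · exact PL_blk hι c

/-- the element `z` -/
def zz : E3.Mod3 := PresentedGroup.mk E3.modRels (FreeGroup.mk lz)

theorem rho_zz (hι : ι ^ 2 = -1) : ∃ t : Fin 8 → K, t ≠ 0 ∧
    ∀ v, rho hι zz (12, v) = (12, v + t) := by
  obtain ⟨σ, hσ, h⟩ := FW_of_chkq (K := K) ι hι (w := lz) (by decide +kernel) (τ := tz) (by decide +kernel)
    (q := 12) chk_lz
  refine ⟨fun j : Fin 8 => σ * val ι (gt tz j), ?_, fun v => ?_⟩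
  · intro h0
    have h1 := congrFun h0 0
    have h2 : gt tz ((0 : Fin 8) : ℕ) = (-4, 0) := rfl
    rw [h2, Pi.zero_apply] at h1
    rcases mul_eq_zero.1 h1 with h3 | h3
    · exact hσ h3
    · simp [val] at h3
  · rw [← h v]
    exact lift_mk hι lz (12, v)

theorem rho_zz_pow (hι : ι ^ 2 = -1) (k : ℕ) (hk : 0 < k) :
    rho (K := K) hι (zz ^ k) (12, 0) ≠ (12, 0) := by
  obtain ⟨t, ht, h⟩ := rho_zz (K := K) hι
  have key : ∀ k : ℕ, rho hι (zz ^ k) (12, 0) = (12, (k : K) • t) := by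
    intro k
    induction k with
    | zero => simp
    | succ k ih =>
      rw [pow_succ', map_mul, Equiv.Perm.mul_apply, ih, h]
      refine Prod.ext rfl ?_
      change (k : K) • t + t = ((k + 1 : ℕ) : K) • t
      push_cast
      rw [add_smul, one_smul]
  rw [key]
  intro h0
  have h1 : (k : K) • t = 0 := congrArg Prod.snd h0
  rcases smul_eq_zero.1 h1 with h2 | h2
  · exact hk.ne' (by exact_mod_cast h2)
  · exact ht h2

end

theorem fg_mod3 : Group.FG E3.Mod3 := by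
  rw [Group.fg_iff]
  exact ⟨Set.range (PresentedGroup.of (rels := E3.modRels)), PresentedGroup.closure_range_of _,
    Set.finite_range _⟩

/-- A subgroup of finite index of the mapping class group of genus `3` with a nonzero homomorphism to
the integers. -/
theorem main : ∃ M : Subgroup E3.Mod3, M.FiniteIndex ∧
    ∃ χ : M →* Multiplicative ℤ, ∃ m, χ m ≠ 1 := by
  have := fg_mod3
  have hι : (Complex.I : ℂ) ^ 2 = -1 := Complex.I_sq
  exact exists_sub (rho hι) (NN hι) (rho_blk hι) 12 zz (rho_zz_pow hι)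

/-- the same for the uniform model -/
theorem main3 : ∃ M : Subgroup (Wajnryb.Mod 3), M.FiniteIndex ∧
    ∃ χ : M →* Multiplicative ℤ, ∃ m, χ m ≠ 1 := by
  have key : ∀ r : Set (FreeGroup (Fin 7)), r = E3.modRels →
      ∃ M : Subgroup (PresentedGroup r), M.FiniteIndex ∧
        ∃ χ : M →* Multiplicative ℤ, ∃ m, χ m ≠ 1 := by
    rintro r rfl
    exact main
  exact key _ Wajnryb.rels3

end Pool.Agent.H.MP_ee9c6f_al.E3Rep
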