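import Mathlib

/-!
MP_ee9c6f_al, genus 3 (helper77). A group of invertible matrices which normalises a finite group with
scalar commutant and has determinants of bounded order is finite.
-/

set_option autoImplicit false

namespace Pool.Agent.H.MP_ee9c6f_al.E3Rep

open Matrix

variable {K : Type} [Field K] {J : Type} [Fintype J] [DecidableEq J]

/-- The matrices `A` which normalise `H` and satisfy `(det A)^e = 1`. -/
def Nrm (H : Subgroup (GL J K)) (e : ℕ) : Subgroup (GL J K) :=
  Subgroup.normalizer (H : Set (GL J K)) ⊓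
    ((powMonoidHom e).comp (Matrix.GeneralLinearGroup.det : GL J K →* Kˣ)).ker

theorem mem_nrm {H : Subgroup (GL J K)} {e : ℕ} {A : GL J K} :
    A ∈ Nrm H e ↔ (∀ h, h ∈ H ↔ A * h * A⁻¹ ∈ H) ∧ (Matrix.det (A : Matrix J J K)) ^ e = 1 := by
  unfold Nrm
  rw [Subgroup.mem_inf, Subgroup.mem_normalizer_iff, MonoidHom.mem_ker]
  refine and_congr Iff.rfl ?_
  rw [MonoidHom.comp_apply, powMonoidHom_apply, Units.ext_iff]
  simp

theorem finite_roots {n : ℕ} (hn : 0 < n) : Finite {c : K // c ^ n = 1} := by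
  classical
  have h : {c : K | c ^ n = 1} ⊆ ((Polynomial.nthRoots n (1 : K)).toFinset : Set K) := by
    intro c hc
    simp only [Finset.mem_coe, Multiset.mem_toFinset]
    exact (Polynomial.mem_nthRoots hn).2 hc
  exact ((Finset.finite_toSet _).subset h).to_subtype

theorem nrm_finite (H : Subgroup (GL J K)) [Finite H] [Nonempty J]
    (hs : ∀ A : GL J K, (∀ h ∈ H, A * h = h * A) → ∃ c : K, (A : Matrix J J K) = c • (1 : Matrix J J K))
    {e : ℕ} (he : 0 < e) : Finite (Nrm H e) := by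
  classical
  let f : Nrm H e → (H → H) := fun A h => ⟨A.1 * h.1 * A.1⁻¹, ((mem_nrm.1 A.2).1 h.1).1 h.2⟩
  have key : ∀ A B : Nrm H e, f A = f B → ∃ c : K, c ^ (Fintype.card J * e) = 1 ∧
      (B.1 : Matrix J J K) = c • (A.1 : Matrix J J K) := by
    intro A B hAB
    have hc : ∀ h ∈ H, (A.1⁻¹ * B.1) * h = h * (A.1⁻¹ * B.1) := by
      intro h hh
      have e1 : A.1 * h * A.1⁻¹ = B.1 * h * B.1⁻¹ :=
        congrArg Subtype.val (congrFun hAB ⟨h, hh⟩)
      have e2 : B.1 * h = A.1 * h * A.1⁻¹ * B.1 := by rw [e1]; group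
      calc A.1⁻¹ * B.1 * h = A.1⁻¹ * (B.1 * h) := by group
        _ = A.1⁻¹ * (A.1 * h * A.1⁻¹ * B.1) := by rw [e2]
        _ = h * (A.1⁻¹ * B.1) := by group
    obtain ⟨c, hcc⟩ := hs _ hc
    have hmem : A.1⁻¹ * B.1 ∈ Nrm H e := (Nrm H e).mul_mem ((Nrm H e).inv_mem A.2) B.2
    have hd := (mem_nrm.1 hmem).2
    refine ⟨c, ?_, ?_⟩
    · rw [hcc, Matrix.det_smul, Matrix.det_one, mul_one, ← pow_mul] at hd
      exact hd
    · have : B.1 = A.1 * (A.1⁻¹ * B.1) := by group
      calc (B.1 : Matrix J J K) = ((A.1 * (A.1⁻¹ * B.1) : GL J K) : Matrix J J K) := by rw [← this]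
        _ = (A.1 : Matrix J J K) * ((A.1⁻¹ * B.1 : GL J K) : Matrix J J K) := by
            rw [Matrix.GeneralLinearGroup.coe_mul]
        _ = c • (A.1 : Matrix J J K) := by rw [hcc, Matrix.mul_smul, Matrix.mul_one]
  have hn : 0 < Fintype.card J * e := Nat.mul_pos Fintype.card_pos he
  haveI := finite_roots (K := K) hn
  -- a section of f on its range
  let r : Set.range f → Nrm H e := fun y => y.2.choose
  have hr : ∀ y : Set.range f, f (r y) = y.1 := fun y => y.2.choose_spec
  have hkey : ∀ B : Nrm H e, ∃ c : {c : K // c ^ (Fintype.card J * e) = 1},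
      (B.1 : Matrix J J K) = c.1 • ((r ⟨f B, B, rfl⟩).1 : Matrix J J K) := by
    intro B
    obtain ⟨c, h1, h2⟩ := key (r ⟨f B, B, rfl⟩) B (hr _)
    exact ⟨⟨c, h1⟩, h2⟩
  let g : Nrm H e → Set.range f × {c : K // c ^ (Fintype.card J * e) = 1} :=
    fun B => (⟨f B, B, rfl⟩, (hkey B).choose)
  have hg : Function.Injective g := by
    intro B B' hBB
    have h1 : (⟨f B, B, rfl⟩ : Set.range f) = ⟨f B', B', rfl⟩ := congrArg Prod.fst hBB
    have h2 : (hkey B).choose = (hkey B').choose := congrArg Prod.snd hBB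
    apply Subtype.ext
    apply Units.ext
    rw [(hkey B).choose_spec, (hkey B').choose_spec, h2, h1]
  exact Finite.of_injective g hg

end Pool.Agent.H.MP_ee9c6f_al.E3Rep
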