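import Pool.Agent.H.MP_ee9c6f_al.E3Rep.Nrm

/-!
MP_ee9c6f_al, genus 3 (helper77). The Pauli group of dimension `8`.
-/

set_option autoImplicit false

namespace Pool.Agent.H.MP_ee9c6f_al.E3Rep

open Matrix

/-- bitwise sum -/
def xr (i a : Fin 8) : Fin 8 := ⟨i.val ^^^ a.val, Nat.xor_lt_two_pow (n := 3) i.2 a.2⟩

/-- parity of the common bits -/
def pr (b j : Fin 8) : ℕ :=
  ((b.val &&& j.val) % 2 + (b.val &&& j.val) / 2 % 2 + (b.val &&& j.val) / 4 % 2) % 2

/-- the sign -/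
def sn (b j : Fin 8) : ℤ := if pr b j = 0 then 1 else -1

theorem xr_assoc : ∀ i a c : Fin 8, xr (xr i a) c = xr i (xr a c) := by decide +kernel
theorem xr_comm : ∀ i a : Fin 8, xr i a = xr a i := by decide +kernel
theorem xr_self : ∀ i : Fin 8, xr i i = 0 := by decide +kernel
theorem xr_zero : ∀ i : Fin 8, xr i 0 = i := by decide +kernel
theorem zero_xr : ∀ i : Fin 8, xr 0 i = i := by decide +kernel
theorem sn_right : ∀ b j a : Fin 8, sn b (xr j a) = sn b j * sn b a := by decide +kernel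
theorem sn_left : ∀ b c j : Fin 8, sn (xr b c) j = sn b j * sn c j := by decide +kernel
theorem sn_zero : ∀ j : Fin 8, sn 0 j = 1 := by decide +kernel
theorem sn_sep : ∀ i j : Fin 8, i ≠ j → ∃ b : Fin 8, sn b j - sn b i = 2 ∨ sn b j - sn b i = -2 := by
  decide +kernel
theorem pr_zero : ∀ a : Fin 8, pr 0 a = 0 ∧ pr a 0 = 0 := by decide +kernel
theorem pr_lt (b j : Fin 8) : pr b j < 2 := Nat.mod_lt _ (by norm_num)

variable {K : Type} [Field K] (ι : K)

/-- the Pauli matrices -/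
def PM (k : ℕ) (a b : Fin 8) : Matrix (Fin 8) (Fin 8) K :=
  Matrix.of fun i j => if j = xr i a then ι ^ k * (sn b j : K) else 0

theorem sn_pow (hι : ι ^ 2 = -1) (b j : Fin 8) : (sn b j : K) = ι ^ (2 * pr b j) := by
  have h := pr_lt b j
  unfold sn
  rcases Nat.lt_succ_iff_lt_or_eq.1 h with h1 | h1
  · have h0 : pr b j = 0 := by omega
    rw [if_pos h0, h0]
    simp
  · rw [if_neg (by omega), h1, mul_one, hι]
    simp

theorem PM_mul (hι : ι ^ 2 = -1) (k k' : ℕ) (a a' b b' : Fin 8) :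
    PM ι k a b * PM ι k' a' b' = PM ι (k + k' + 2 * pr b a') (xr a a') (xr b b') := by
  ext i j
  rw [Matrix.mul_apply, Finset.sum_eq_single (xr i a)]
  · simp only [PM, Matrix.of_apply, if_true]
    rw [xr_assoc]
    by_cases h : j = xr i (xr a a')
    · rw [if_pos h, if_pos h]
      have e : xr i a = xr j a' := by
        rw [h, xr_assoc, xr_assoc, xr_self, xr_zero]
      rw [e, sn_right, sn_left, pow_add, pow_add, ← sn_pow ι hι]
      push_cast
      ring
    · rw [if_neg h, if_neg h, mul_zero]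
  · intro l _ hl
    simp only [PM, Matrix.of_apply]
    rw [if_neg hl, zero_mul]
  · intro h
    exact absurd (Finset.mem_univ _) h

theorem PM_zero (k : ℕ) : PM ι k 0 0 = ι ^ k • (1 : Matrix (Fin 8) (Fin 8) K) := by
  ext i j
  simp only [PM, Matrix.of_apply, xr_zero, sn_zero, Matrix.smul_apply, Matrix.one_apply, smul_eq_mul]
  by_cases h : j = i
  · rw [if_pos h, if_pos h.symm]
    simp
  · rw [if_neg h, if_neg (Ne.symm h), mul_zero]

theorem PM_one : PM ι 0 0 0 = 1 := by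
  rw [PM_zero, pow_zero, one_smul]

theorem PM_mod (hι : ι ^ 2 = -1) (k : ℕ) (a b : Fin 8) : PM ι (k % 4) a b = PM ι k a b := by
  have h4 : ι ^ 4 = 1 := by linear_combination (ι ^ 2 - 1) * hι
  have : ι ^ k = ι ^ (k % 4) := by
    conv_lhs => rw [← Nat.mod_add_div k 4, pow_add, pow_mul, h4, one_pow, mul_one]
  ext i j
  simp only [PM, Matrix.of_apply, this]

theorem PM_inv (hι : ι ^ 2 = -1) (k : ℕ) (a b : Fin 8) :
    PM ι k a b * PM ι (3 * k + 2 * pr b a) a b = 1 := by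
  have h4 : ι ^ 4 = 1 := by linear_combination (ι ^ 2 - 1) * hι
  rw [PM_mul ι hι, xr_self, xr_self, PM_zero]
  have e : k + (3 * k + 2 * pr b a) + 2 * pr b a = 4 * (k + pr b a) := by ring
  rw [e, pow_mul, h4, one_pow, one_smul]

/-- the Pauli group -/
def PH (hι : ι ^ 2 = -1) : Subgroup (GL (Fin 8) K) where
  carrier := {u | ∃ (k : ℕ) (a b : Fin 8), (u : Matrix (Fin 8) (Fin 8) K) = PM ι k a b}
  one_mem' := ⟨0, 0, 0, (PM_one ι).symm⟩
  mul_mem' := by
    rintro u v ⟨k, a, b, hu⟩ ⟨k', a', b', hv⟩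
    exact ⟨_, _, _, by rw [Matrix.GeneralLinearGroup.coe_mul, hu, hv, PM_mul ι hι]⟩
  inv_mem' := by
    rintro u ⟨k, a, b, hu⟩
    refine ⟨3 * k + 2 * pr b a, a, b, ?_⟩
    have h1 : (u : Matrix (Fin 8) (Fin 8) K) * PM ι (3 * k + 2 * pr b a) a b = 1 := by
      rw [hu, PM_inv ι hι]
    have h2 : ((u⁻¹ : GL (Fin 8) K) : Matrix (Fin 8) (Fin 8) K) * (u : Matrix (Fin 8) (Fin 8) K) = 1 := by
      rw [← Matrix.GeneralLinearGroup.coe_mul, inv_mul_cancel]; rfl
    calc ((u⁻¹ : GL (Fin 8) K) : Matrix (Fin 8) (Fin 8) K)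
        = ((u⁻¹ : GL (Fin 8) K) : Matrix (Fin 8) (Fin 8) K) *
          ((u : Matrix (Fin 8) (Fin 8) K) * PM ι (3 * k + 2 * pr b a) a b) := by rw [h1, mul_one]
      _ = PM ι (3 * k + 2 * pr b a) a b := by rw [← mul_assoc, h2, one_mul]

theorem mem_PH {hι : ι ^ 2 = -1} {u : GL (Fin 8) K} :
    u ∈ PH ι hι ↔ ∃ (k : ℕ) (a b : Fin 8), (u : Matrix (Fin 8) (Fin 8) K) = PM ι k a b := Iff.rfl

instance PH_finite (hι : ι ^ 2 = -1) : Finite (PH ι hι) := by
  have key : ∀ u : PH ι hι, ∃ x : Fin 4 × Fin 8 × Fin 8,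
      (u.1 : Matrix (Fin 8) (Fin 8) K) = PM ι x.1 x.2.1 x.2.2 := by
    rintro ⟨u, k, a, b, hu⟩
    refine ⟨(⟨k % 4, Nat.mod_lt _ (by norm_num)⟩, a, b), ?_⟩
    rw [hu]
    exact (PM_mod ι hι k a b).symm
  choose f hf using key
  refine Finite.of_injective f fun u v huv => ?_
  apply Subtype.ext
  apply Units.ext
  rw [hf u, hf v, huv]

theorem PH_scalar [CharZero K] (hι : ι ^ 2 = -1) (A : GL (Fin 8) K) (h : ∀ u ∈ PH ι hι, A * u = u * A) :
    ∃ c : K, (A : Matrix (Fin 8) (Fin 8) K) = c • (1 : Matrix (Fin 8) (Fin 8) K) := by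
  have h1 : ∀ (k : ℕ) (a b : Fin 8), (A : Matrix (Fin 8) (Fin 8) K) * PM ι k a b =
      PM ι k a b * (A : Matrix (Fin 8) (Fin 8) K) := by
    intro k a b
    have e1 := PM_inv ι hι k a b
    have e2 : PM ι (3 * k + 2 * pr b a) a b * PM ι k a b = 1 := mul_eq_one_comm.1 e1
    have := h ⟨PM ι k a b, PM ι (3 * k + 2 * pr b a) a b, e1, e2⟩ ⟨k, a, b, rfl⟩
    exact congrArg (fun u : GL (Fin 8) K => (u : Matrix (Fin 8) (Fin 8) K)) this
  set B : Matrix (Fin 8) (Fin 8) K := (A : Matrix (Fin 8) (Fin 8) K) with hB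
  have h2 : ∀ i j, i ≠ j → B i j = 0 := by
    intro i j hij
    obtain ⟨b, hb⟩ := sn_sep i j hij
    have e := congrFun (congrFun (h1 0 0 b) i) j
    rw [Matrix.mul_apply, Matrix.mul_apply, Finset.sum_eq_single j, Finset.sum_eq_single i] at e
    · simp only [PM, Matrix.of_apply, xr_zero, if_true, pow_zero, one_mul] at e
      have e' : B i j * ((sn b j - sn b i : ℤ) : K) = 0 := by
        push_cast
        linear_combination e
      rcases mul_eq_zero.1 e' with e'' | e''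
      · exact e''
      · exfalso
        rcases hb with hb | hb
        · rw [hb] at e''
          norm_num at e''
        · rw [hb] at e''
          norm_num at e''
    · intro l _ hl
      simp only [PM, Matrix.of_apply, xr_zero]
      rw [if_neg hl, zero_mul]
    · intro h; exact absurd (Finset.mem_univ _) h
    · intro l _ hl
      simp only [PM, Matrix.of_apply, xr_zero]
      rw [if_neg (Ne.symm hl), mul_zero]
    · intro h; exact absurd (Finset.mem_univ _) h
  have h3 : ∀ i, B i i = B 0 0 := by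
    intro i
    have e := congrFun (congrFun (h1 0 i 0) 0) i
    rw [Matrix.mul_apply, Matrix.mul_apply, Finset.sum_eq_single 0, Finset.sum_eq_single i] at e
    · simp only [PM, Matrix.of_apply, zero_xr, if_true, pow_zero, one_mul, sn_zero, Int.cast_one,
        mul_one] at e
      exact e.symm
    · intro l _ hl
      simp only [PM, Matrix.of_apply, zero_xr]
      rw [if_neg hl, zero_mul]
    · intro h; exact absurd (Finset.mem_univ _) h
    · intro l _ hl
      simp only [PM, Matrix.of_apply]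
      rw [if_neg, mul_zero]
      intro h5
      apply hl
      have h6 : xr i i = xr (xr l i) i := congrArg (fun t => xr t i) h5
      rw [xr_self, xr_assoc, xr_self, xr_zero] at h6
      exact h6.symm
    · intro h; exact absurd (Finset.mem_univ _) h
  refine ⟨B 0 0, ?_⟩
  ext i j
  rw [Matrix.smul_apply, Matrix.one_apply, smul_eq_mul]
  by_cases hij : i = j
  · subst hij
    rw [if_pos rfl, mul_one, h3]
  · rw [if_neg hij, mul_zero, h2 i j hij]

/-- a set of matrices which is closed under multiplication and contains the generators contains all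
Pauli matrices -/
theorem PM_gen (hι : ι ^ 2 = -1) (S : Set (Matrix (Fin 8) (Fin 8) K))
    (hmul : ∀ X ∈ S, ∀ Y ∈ S, X * Y ∈ S) (hk : ∀ k, PM ι k 0 0 ∈ S)
    (ha : ∀ a : Fin 8, a = 1 ∨ a = 2 ∨ a = 4 → PM ι 0 a 0 ∈ S)
    (hb : ∀ b : Fin 8, b = 1 ∨ b = 2 ∨ b = 4 → PM ι 0 0 b ∈ S) (k : ℕ) (a b : Fin 8) :
    PM ι k a b ∈ S := by
  have ea : ∀ a a' : Fin 8, PM ι 0 (xr a a') 0 = PM ι 0 a 0 * PM ι 0 a' 0 := by
    intro a a'
    rw [PM_mul ι hι, (pr_zero a').1, xr_zero]
  have eb : ∀ b b' : Fin 8, PM ι 0 0 (xr b b') = PM ι 0 0 b * PM ι 0 0 b' := by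
    intro b b'
    rw [PM_mul ι hι, (pr_zero b).2, xr_zero]
  have dec : ∀ a : Fin 8, ∃ a1 a2 a3 : Fin 8, (a1 = 0 ∨ a1 = 1) ∧ (a2 = 0 ∨ a2 = 2) ∧
      (a3 = 0 ∨ a3 = 4) ∧ a = xr (xr a1 a2) a3 := by decide +kernel
  have hA : ∀ a : Fin 8, PM ι 0 a 0 ∈ S := by
    intro a
    obtain ⟨a1, a2, a3, h1, h2, h3, rfl⟩ := dec a
    rw [ea, ea]
    refine hmul _ (hmul _ ?_ _ ?_) _ ?_
    · rcases h1 with rfl | rfl
      · exact hk 0
      · exact ha 1 (by simp)
    · rcases h2 with rfl | rfl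
      · exact hk 0
      · exact ha 2 (by simp)
    · rcases h3 with rfl | rfl
      · exact hk 0
      · exact ha 4 (by simp)
  have hB : ∀ b : Fin 8, PM ι 0 0 b ∈ S := by
    intro b
    obtain ⟨a1, a2, a3, h1, h2, h3, rfl⟩ := dec b
    rw [eb, eb]
    refine hmul _ (hmul _ ?_ _ ?_) _ ?_
    · rcases h1 with rfl | rfl
      · exact hk 0
      · exact hb 1 (by simp)
    · rcases h2 with rfl | rfl
      · exact hk 0
      · exact hb 2 (by simp)
    · rcases h3 with rfl | rfl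
      · exact hk 0
      · exact hb 4 (by simp)
  have e : PM ι k a b = PM ι k 0 0 * (PM ι 0 a 0 * PM ι 0 0 b) := by
    rw [PM_mul ι hι, PM_mul ι hι, (pr_zero 0).1, xr_zero, (pr_zero a).1, zero_xr, zero_xr, zero_xr]
    simp
  rw [e]
  exact hmul _ (hk k) _ (hmul _ (hA a) _ (hB b))

end Pool.Agent.H.MP_ee9c6f_al.E3Rep
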