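import Pool.Agent.H.MP_ee9c6f_al.E3Rep.Crit

/-!
MP_ee9c6f_al, genus 3 (helper77). The affine maps of the letters and words, and the check of a word.
-/

set_option autoImplicit false

namespace Pool.Agent.H.MP_ee9c6f_al.E3Rep

open Matrix

/-- words -/
abbrev Wd : Type := List (Fin 7 × Bool)

/-- the fibre at the end of a word (the last letter acts first) -/
def sec : Wd → ℕ → ℕ
  | [], q => q
  | p :: w, q => sgn p.1.val (sec w q)

/-- the word as a word of operations -/
def prg : Wd → ℕ → List Op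
  | [], _ => []
  | p :: w, q => (cd p.1.val p.2 (sec w q), kp p.1.val) :: prg w q

theorem prg_length (w : Wd) (q : ℕ) : (prg w q).length = w.length := by
  induction w with
  | nil => rfl
  | cons p w ih => rw [prg, List.length_cons, List.length_cons, ih]

/-- evaluation of a word, forced -/
def exk : Wd → ℕ → List Gi → (ℕ → List Gi → Bool) → Bool
  | [], q, l, k => k q l
  | p :: w, q, l, k => exk w q l fun q l =>
      stpk (cd p.1.val p.2 q) (kp p.1.val) l fun l => fN (sgn p.1.val q) fun q => k q l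

theorem exk_eq (w : Wd) (q : ℕ) (l : List Gi) (k : ℕ → List Gi → Bool) :
    exk w q l k = k (sec w q) (ev (prg w q) l) := by
  induction w generalizing k with
  | nil => rfl
  | cons p w ih =>
    rw [exk, ih, stpk_eq, fN_eq]
    rfl

/-- check of a word on the fibre `q` -/
def chkq (w : Wd) (τ : List Gi) (q : ℕ) : Bool :=
  exk w q (pk 1) fun q' l => Nat.beq q' q && okP τ l

/-- check of a word -/
def chk (w : Wd) : Bool := all (chkq w []) 28

section

variable {K : Type} [Field K] [CharZero K] (ι : K)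

/-- the scale of a letter -/
def kap (s : Bool) : K := if s then 1 + ι else 1

theorem kap_ne (hι : ι ^ 2 = -1) (s : Bool) : kap ι s ≠ 0 := by
  unfold kap
  split_ifs
  · intro h
    have : (2 : K) = 0 := by linear_combination (1 - ι) * h + hι
    exact two_ne_zero this
  · exact one_ne_zero

/-- a vector with the coordinate `1` for the translation -/
def ext (v : Fin 8 → K) (n : ℕ) : K := if h : n < 8 then v ⟨n, h⟩ else 1

/-- a vector with the coordinate `0` for the translation -/
def ext0 (v : Fin 8 → K) (n : ℕ) : K := if h : n < 8 then v ⟨n, h⟩ else 0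

/-- the affine map of an operation -/
def FO (p : Op) (v : Fin 8 → K) : Fin 8 → K :=
  fun j => (kap ι p.2)⁻¹ * stpM (roK ι) p (ext v) j.val

/-- the map of a letter -/
def FL (p : Fin 7 × Bool) (x : Fin 28 × (Fin 8 → K)) : Fin 28 × (Fin 8 → K) :=
  (⟨sgn p.1.val x.1.val, (sgn_ok _ p.1.2 _ x.1.2).1⟩,
    FO ι (cd p.1.val p.2 x.1.val, kp p.1.val) x.2)

/-- the map of a word -/
def FW : Wd → Fin 28 × (Fin 8 → K) → Fin 28 × (Fin 8 → K)
  | [], x => x
  | p :: w, x => FL ι p (FW w x)

theorem stpM_eight (p : Op) (x : ℕ → K) : stpM (roK ι) p x 8 = kap ι p.2 * x 8 := by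
  unfold stpM kap roK
  rw [if_neg (by norm_num)]
  split_ifs
  · ring
  · ring

theorem stpM_mul (p : Op) (s : K) (x : ℕ → K) (j : ℕ) :
    stpM (roK ι) p (fun n => s * x n) j = s * stpM (roK ι) p x j := by
  have h := evM_hom (roK ι) (roK ι) (AddMonoidHom.mulLeft s) (fun k _ z => by
    change s * (ι ^ k * z) = ι ^ k * (s * z)
    ring) [p] x j
  exact h

theorem FW_spec (hι : ι ^ 2 = -1) (w : Wd) (q : Fin 28) (v : Fin 8 → K) :
    ((FW ι w (q, v)).1.val = sec w q) ∧ evM (roK ι) (prg w q) (ext v) 8 ≠ 0 ∧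
      ∀ j : Fin 8, evM (roK ι) (prg w q) (ext v) j =
        evM (roK ι) (prg w q) (ext v) 8 * (FW ι w (q, v)).2 j := by
  induction w with
  | nil =>
    refine ⟨rfl, ?_, fun j => ?_⟩
    · change ext v 8 ≠ 0
      simp [ext]
    · change ext v j = ext v 8 * v j
      simp [ext]
  | cons p w ih =>
    obtain ⟨h1, h2, h3⟩ := ih
    set x := evM (roK ι) (prg w q) (ext v) with hx
    set u := (FW ι w (q, v)).2 with hu
    set P : Op := (cd p.1.val p.2 (sec w q), kp p.1.val) with hP
    have e8 : evM (roK ι) (prg (p :: w) q) (ext v) 8 = kap ι P.2 * x 8 := stpM_eight ι P x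
    have hF : FW ι (p :: w) (q, v) = FL ι p (FW ι w (q, v)) := rfl
    have hFL : (FW ι (p :: w) (q, v)).2 = FO ι P u := by
      rw [hF]
      change FO ι (cd p.1.val p.2 (FW ι w (q, v)).1.val, kp p.1.val) (FW ι w (q, v)).2 = _
      rw [h1]
    refine ⟨?_, ?_, fun j => ?_⟩
    · rw [hF, FL]
      change sgn p.1.val (FW ι w (q, v)).1.val = _
      rw [h1]
      rfl
    · rw [e8]
      exact mul_ne_zero (kap_ne ι hι _) h2
    · rw [e8, hFL]
      have e1 : ∀ n < 9, x n = x 8 * ext u n := by
        intro n hn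
        by_cases hn8 : n < 8
        · rw [ext, dif_pos hn8]
          exact h3 ⟨n, hn8⟩
        · have : n = 8 := by omega
          subst this
          simp [ext]
      have e2 : evM (roK ι) (prg (p :: w) q) (ext v) j = x 8 * stpM (roK ι) P (ext u) j := by
        rw [← stpM_mul]
        exact stpM_congr (roK ι) e1 j
      rw [e2, FO]
      have := kap_ne ι hι P.2
      field_simp

theorem FW_of_chkq (hι : ι ^ 2 = -1) {w : Wd} (hw : w.length ≤ 218) {τ : List Gi}
    (hτ : ∀ j < 8, |(gt τ j).1| ≤ 2 ^ 100 ∧ |(gt τ j).2| ≤ 2 ^ 100) {q : Fin 28}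
    (h : chkq w τ q = true) : ∃ σ : K, σ ≠ 0 ∧ ∀ v : Fin 8 → K,
      FW ι w (q, v) = (q, v + fun j : Fin 8 => σ * val ι (gt τ j)) := by
  unfold chkq at h
  rw [exk_eq] at h
  simp only [Bool.and_eq_true] at h
  obtain ⟨h1, h2⟩ := h
  have h1 := Nat.eq_of_beq_eq_true h1
  have hl : (prg w q).length ≤ 218 := by rw [prg_length]; exact hw
  set s : K := val ι (Wm (prg w q) 8 8) with hs
  have e8 : ∀ v : Fin 8 → K, evM (roK ι) (prg w q) (ext v) 8 = s := by
    intro v
    rw [evM_phi ι hι _ _ (by norm_num), Finset.sum_eq_single 8]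
    · simp [ext, hs]
    · intro k _ hk
      rw [wm_eight _ hk]
      simp [val]
    · intro h
      exact absurd (Finset.mem_range.2 (by norm_num)) h
  have hs0 : s ≠ 0 := by
    have := (FW_spec ι hι w q 0).2.1
    rwa [e8] at this
  refine ⟨s⁻¹, inv_ne_zero hs0, fun v => ?_⟩
  obtain ⟨a1, -, a3⟩ := FW_spec ι hι w q v
  refine Prod.ext (Fin.ext (a1.trans h1)) ?_
  funext j
  have a4 := a3 j
  rw [e8, evM_phi ι hι _ _ (by omega)] at a4
  have e : ∑ k ∈ Finset.range 9, val ι (Wm (prg w q) j k) * ext v k =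
      s * v j + val ι (gt τ j) := by
    have e1 : ∀ k ∈ Finset.range 9, val ι (Wm (prg w q) j k) * ext v k =
        (if k = j then s * v j else 0) + (if k = 8 then val ι (gt τ j) else 0) := by
      intro k hk
      rw [crit_wm hl hτ h2 j.2 (Finset.mem_range.1 hk)]
      by_cases hkj : k = j
      · have hk8 : k ≠ 8 := by omega
        rw [if_pos hkj, if_neg hk8, if_pos hkj, if_neg hk8, add_zero, add_zero, ext,
          dif_pos (by omega)]
        subst hkj
        rfl
      · rw [if_neg hkj, if_neg hkj, zero_add, zero_add]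
        by_cases hk8 : k = 8
        · rw [if_pos hk8, if_pos hk8, hk8]
          simp [ext]
        · rw [if_neg hk8, if_neg hk8]
          simp [val]
    rw [Finset.sum_congr rfl e1, Finset.sum_add_distrib, Finset.sum_ite_eq', Finset.sum_ite_eq',
      if_pos (Finset.mem_range.2 (by omega)), if_pos (Finset.mem_range.2 (by norm_num))]
  rw [e] at a4
  change (FW ι w (q, v)).2 j = v j + s⁻¹ * val ι (gt τ j)
  have : (FW ι w (q, v)).2 j = s⁻¹ * (s * v j + val ι (gt τ j)) := by
    rw [a4]
    field_simp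
  rw [this]
  field_simp

theorem FW_of_chk (hι : ι ^ 2 = -1) {w : Wd} (hw : w.length ≤ 218) (h : chk w = true)
    (x : Fin 28 × (Fin 8 → K)) : FW ι w x = x := by
  obtain ⟨q, v⟩ := x
  obtain ⟨σ, -, h1⟩ := FW_of_chkq (K := K) ι hι hw (τ := []) (fun j _ => by
    have : gt [] j = (0, 0) := by cases j <;> rfl
    rw [this]
    simp) (all_sound h q.2)
  rw [h1]
  refine Prod.ext rfl ?_
  funext j
  have : gt [] (j : ℕ) = (0, 0) := by
    rcases (j : ℕ) with _ | n <;> rfl
  simp [this, val]

end

theorem inv_ok : ∀ c : Fin 7, chk [(c, false), (c, true)] = true ∧ chk [(c, true), (c, false)] = true := by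
  decide +kernel

section

variable {K : Type} [Field K] [CharZero K] {ι : K}

/-- the permutation of a generator -/
def PL (hι : ι ^ 2 = -1) (c : Fin 7) : Equiv.Perm (Fin 28 × (Fin 8 → K)) where
  toFun := FL ι (c, true)
  invFun := FL ι (c, false)
  left_inv x := FW_of_chk ι hι (by simp) (inv_ok c).1 x
  right_inv x := FW_of_chk ι hι (by simp) (inv_ok c).2 x

theorem lift_mk (hι : ι ^ 2 = -1) (w : Wd) (x : Fin 28 × (Fin 8 → K)) :
    FreeGroup.lift (PL hι) (FreeGroup.mk w) x = FW ι w x := by
  rw [FreeGroup.lift_mk]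
  induction w with
  | nil => rfl
  | cons p w ih =>
    rw [List.map_cons, List.prod_cons, Equiv.Perm.mul_apply, ih]
    obtain ⟨c, _ | _⟩ := p
    · rfl
    · rfl

theorem lift_one_of_chk (hι : ι ^ 2 = -1) {w : Wd} (hw : w.length ≤ 218) (h : chk w = true) :
    FreeGroup.lift (PL (K := K) hι) (FreeGroup.mk w) = 1 := by
  ext1 x
  rw [lift_mk, FW_of_chk ι hι hw h]
  rfl

end

end Pool.Agent.H.MP_ee9c6f_al.E3Rep
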