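import Pool.Agent.H.MP_ee9c6f_al.E3Rep.Main

/-!
MP_ee9c6f_al, genus 3 (helper77). The subgroup can be chosen normal and the homomorphism onto `ℤ`.
-/

set_option autoImplicit false

namespace Pool.Agent.H.MP_ee9c6f_al.E3Rep

/-- a nontrivial homomorphism to `ℤ` can be divided so that it is surjective -/
theorem onto_of_ne {M : Type} [Group M] (χ : M →* Multiplicative ℤ) (h : ∃ m, χ m ≠ 1) :
    ∃ (f : M →* Multiplicative ℤ) (a : ℤ), a ≠ 0 ∧ Function.Surjective f ∧
      ∀ m, Multiplicative.toAdd (χ m) = a * Multiplicative.toAdd (f m) := by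
  obtain ⟨a, ha⟩ := Int.subgroup_cyclic (χ.toAdditiveLeft.range)
  have ha' : χ.toAdditiveLeft.range = AddSubgroup.zmultiples a := by
    rw [ha, AddSubgroup.zmultiples_eq_closure]
  have hd : ∀ m, a ∣ Multiplicative.toAdd (χ m) := by
    intro m
    have h1 : Multiplicative.toAdd (χ m) ∈ χ.toAdditiveLeft.range := ⟨Additive.ofMul m, rfl⟩
    rw [ha', Int.mem_zmultiples_iff] at h1
    exact h1
  have ha0 : a ≠ 0 := by
    rintro rfl
    obtain ⟨m, hm⟩ := h
    have := zero_dvd_iff.1 (hd m)
    exact hm this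
  obtain ⟨m0, hm0⟩ : ∃ m, Multiplicative.toAdd (χ m) = a := by
    have h1 : a ∈ χ.toAdditiveLeft.range := by
      rw [ha']
      exact AddSubgroup.mem_zmultiples a
    obtain ⟨x, hx⟩ := h1
    exact ⟨x.toMul, hx⟩
  choose k hk using hd
  let f : M →* Multiplicative ℤ :=
    { toFun := fun m => Multiplicative.ofAdd (k m)
      map_one' := by
        have h1 := hk 1
        rw [map_one, toAdd_one] at h1
        have h2 : k 1 = 0 := (mul_eq_zero.1 h1.symm).resolve_left ha0
        rw [h2]
        rfl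
      map_mul' := by
        intro x y
        have h1 := hk (x * y)
        rw [map_mul, toAdd_mul, hk x, hk y, ← mul_add] at h1
        have h2 : k (x * y) = k x + k y := (mul_left_cancel₀ ha0 h1).symm
        rw [h2]
        rfl }
  refine ⟨f, a, ha0, fun y => ?_, hk⟩
  refine ⟨m0 ^ (Multiplicative.toAdd y), ?_⟩
  have h1 : k m0 = 1 := by
    have := hk m0
    rw [hm0] at this
    exact (mul_left_cancel₀ ha0 (by rw [mul_one]; exact this)).symm
  have h2 : f m0 = Multiplicative.ofAdd 1 := congrArg Multiplicative.ofAdd h1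
  rw [map_zpow, h2, ← ofAdd_zsmul]
  simp

theorem upgrade {G : Type} [Group G] (h : ∃ M : Subgroup G, M.FiniteIndex ∧
    ∃ χ : M →* Multiplicative ℤ, ∃ m, χ m ≠ 1) :
    ∃ M : Subgroup G, M.Normal ∧ M.FiniteIndex ∧
      ∃ f : M →* Multiplicative ℤ, Function.Surjective f := by
  obtain ⟨M, hM, χ, m, hm⟩ := h
  haveI := hM
  have hN : M.normalCore.FiniteIndex := inferInstance
  let χ' : M.normalCore →* Multiplicative ℤ := χ.comp (Subgroup.inclusion M.normalCore_le)
  have hne : ∃ x, χ' x ≠ 1 := by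
    obtain ⟨k, hk, -, hkm⟩ := Subgroup.exists_pow_mem_of_index_ne_zero
      (H := M.normalCore) Subgroup.FiniteIndex.index_ne_zero (m : G)
    refine ⟨⟨(m : G) ^ k, hkm⟩, ?_⟩
    have e : χ' ⟨(m : G) ^ k, hkm⟩ = χ m ^ k := by
      rw [← map_pow]
      rfl
    rw [e]
    intro h1
    apply hm
    have h2 : (k : ℤ) * Multiplicative.toAdd (χ m) = 0 := by
      have := congrArg Multiplicative.toAdd h1
      rw [toAdd_pow, toAdd_one, nsmul_eq_mul] at this
      exact this
    have h3 := (mul_eq_zero.1 h2).resolve_left (by exact_mod_cast hk.ne')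
    exact h3
  obtain ⟨f, -, -, hf, -⟩ := onto_of_ne χ' hne
  exact ⟨M.normalCore, inferInstance, hN, f, hf⟩

/-- A normal subgroup of finite index of the mapping class group of genus `3` which maps onto `ℤ`. -/
theorem onto3 : ∃ M : Subgroup (Wajnryb.Mod 3), M.Normal ∧ M.FiniteIndex ∧
    ∃ f : M →* Multiplicative ℤ, Function.Surjective f := upgrade main3

end Pool.Agent.H.MP_ee9c6f_al.E3Rep
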