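import Pool.Agent.H.MP_ee9c6f_al.helper91.Wall2

/-!
MP_ee9c6f_al (helper77: helper91's proof of Lemma W with one more conclusion). A finitely presented
group with a subgroup `M` of finite index and a nontrivial homomorphism `χ` of `M` to `ℤ` has a finitely
generated subgroup of `ker χ` with at least two relative ends.
-/

set_option autoImplicit false

namespace Pool.Agent.H.MP_ee9c6f_al.Wall

open Pointwise

/-- **Lemma W**, with the subgroup inside the kernel. -/
theorem two_le_ker {α : Type} [Finite α] {rels : Set (FreeGroup α)} (hfin : rels.Finite)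
    (M : Subgroup (PresentedGroup rels)) [M.FiniteIndex] (χ : M →* Multiplicative ℤ)
    (hχ : ∃ m, χ m ≠ 1) :
    ∃ H : Subgroup (PresentedGroup rels), H.FG ∧ H ≤ χ.ker.map M.subtype ∧
      ∀ S : Set (PresentedGroup rels), S.Finite → Subgroup.closure S = ⊤ → 2 ≤ relEnds S H := by
  classical
  -- an element of positive height
  obtain ⟨m₀, hm₀⟩ : ∃ m : M, 0 < Multiplicative.toAdd (χ m) := by
    obtain ⟨m, hm⟩ := hχ
    have h1 : Multiplicative.toAdd (χ m) ≠ 0 := fun h => hm (by
      rw [← ofAdd_toAdd (χ m), h]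
      rfl)
    rcases lt_or_gt_of_ne h1 with h2 | h2
    · exact ⟨m⁻¹, by rw [map_inv, toAdd_inv]; omega⟩
    · exact ⟨m, h2⟩
  obtain ⟨h, hh, hbd⟩ := exists_height (M := M) χ
  choose bs hbs using hbd
  have := Fintype.ofFinite α
  let b : ℤ := ∑ i : α, (bs (PresentedGroup.of i) : ℤ)
  have hb : ∀ (i : α) (g : PresentedGroup rels), |h (PresentedGroup.of i * g) - h g| ≤ b := by
    intro i g
    refine (hbs (PresentedGroup.of i) g).trans ?_
    exact Finset.single_le_sum (f := fun i : α => (bs (PresentedGroup.of i) : ℤ))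
      (fun _ _ => Int.natCast_nonneg _) (Finset.mem_univ i)
  have hb0 : 0 ≤ b := Finset.sum_nonneg fun _ _ => Int.natCast_nonneg _
  obtain ⟨w, hw⟩ : ∃ w : List (α × Bool), PresentedGroup.mk rels (FreeGroup.mk w) = m₀ := by
    obtain ⟨v, hv⟩ := PresentedGroup.mk_surjective rels (m₀ : PresentedGroup rels)
    exact ⟨v.toWord, by rw [FreeGroup.mk_toWord, hv]⟩
  obtain ⟨L, hL⟩ : ∃ L : ℕ, ∀ r ∈ rels, r.toWord.length ≤ L := by
    obtain ⟨L, hL⟩ := (hfin.image fun r : FreeGroup α => r.toWord.length).bddAbove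
    exact ⟨L, fun r hr => hL ⟨r, hr, rfl⟩⟩
  let D : ℤ := b * L + b * w.length + |h 1|
  have hD1 : |h 1| ≤ D := by
    have h1 : 0 ≤ b * (L : ℤ) := mul_nonneg hb0 (Int.natCast_nonneg _)
    have h2 : 0 ≤ b * (w.length : ℤ) := mul_nonneg hb0 (Int.natCast_nonneg _)
    change |h 1| ≤ b * L + b * w.length + |h 1|
    linarith
  have hD2 : ∀ r ∈ rels, b * (r.toWord.length : ℤ) ≤ D := by
    intro r hr
    have h1 : b * (r.toWord.length : ℤ) ≤ b * (L : ℤ) :=
      mul_le_mul_of_nonneg_left (by exact_mod_cast hL r hr) hb0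
    have h2 : 0 ≤ b * (w.length : ℤ) := mul_nonneg hb0 (Int.natCast_nonneg _)
    have h3 : 0 ≤ |h 1| := abs_nonneg _
    change _ ≤ b * L + b * w.length + |h 1|
    linarith
  have hD3 : b * (w.length : ℤ) + |h 1| ≤ D := by
    have h1 : 0 ≤ b * (L : ℤ) := mul_nonneg hb0 (Int.natCast_nonneg _)
    change _ ≤ b * L + b * w.length + |h 1|
    linarith
  let R : PresentedGroup rels →* Equiv.Perm (PresentedGroup rels × ℤ) :=
    PresentedGroup.toGroup (f := act h D) (fun r hr => rho_rel hb hD1 hD2 r hr)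
  have hR : ∀ i, R (PresentedGroup.of i) = act h D i := fun i => PresentedGroup.toGroup.of _
  let H : Subgroup (PresentedGroup rels) := stab χ hh (gens rels) D
  have hgfin : (gens rels).Finite := Set.finite_range _
  refine ⟨H, stab_fg χ hh (gens rels) D hgfin hD1, ?_, fun S hS hS' => ?_⟩
  · rintro x ⟨hx, hx1, -⟩
    exact ⟨⟨x, hx⟩, hx1, rfl⟩
  have hinv : ∀ m ∈ H, ∀ g, F R (g * m) = F R g := fun m hm g =>
    F_inv R hR (height_stab χ hh _ _ hm) (comp_stab χ hh _ _ hm) g
  -- the set
  let U : Set (PresentedGroup rels ⧸ H) := QuotientGroup.mk '' {g | 1 ≤ F R g}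
  have hU : ∀ g : PresentedGroup rels, (QuotientGroup.mk g : PresentedGroup rels ⧸ H) ∈ U ↔
      1 ≤ F R g := by
    intro g
    constructor
    · rintro ⟨g', hg', he⟩
      have h1 : g'⁻¹ * g ∈ H := QuotientGroup.eq.mp he
      have h2 := hinv _ h1 g'
      rw [mul_inv_cancel_left] at h2
      rw [h2]
      exact hg'
    · intro hg
      exact ⟨g, hg, rfl⟩
  have hCfin := comp_finite χ hh (gens rels) D hD1
  set CC : Set (PresentedGroup rels ⧸ H) :=
    (QuotientGroup.mk : PresentedGroup rels → PresentedGroup rels ⧸ H) ''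
      {x | Comp (gens rels) h D x} with hCC
  have hedge : ∀ x y : PresentedGroup rels, E h D x y ≠ 0 →
      (QuotientGroup.mk x : PresentedGroup rels ⧸ H) ∈ CC ∨
        (QuotientGroup.mk y : PresentedGroup rels ⧸ H) ∈ CC := by
    intro x y hxy
    by_contra hcon
    push Not at hcon
    apply hxy
    unfold E
    rw [if_neg (fun H' => hcon.1 ⟨x, H'.1, rfl⟩), if_neg (fun H' => hcon.2 ⟨y, H'.1, rfl⟩),
      sub_zero]
  have hAI : AInv (PresentedGroup rels) U := by
    apply E2.AInv.of_gen (S := gens rels) (PresentedGroup.closure_range_of rels)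
    rintro _ ⟨i, rfl⟩
    have hfin' : (CC ∪ (PresentedGroup.of i : PresentedGroup rels) • CC).Finite :=
      hCfin.union hCfin.smul_set
    refine hfin'.subset ?_
    intro q hq
    induction q using QuotientGroup.induction_on with
    | H g =>
    have e1 : (QuotientGroup.mk g : PresentedGroup rels ⧸ H) ∈
        (PresentedGroup.of i : PresentedGroup rels) • U ↔
        1 ≤ F R ((PresentedGroup.of i)⁻¹ * g) := by
      rw [Set.mem_smul_set_iff_inv_smul_mem]
      exact hU _
    have e2 := hU g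
    have h3 : F R g = F R ((PresentedGroup.of i)⁻¹ * g) +
        E h D ((PresentedGroup.of i)⁻¹ * g) g := by
      have := F_of_mul R hR i ((PresentedGroup.of i)⁻¹ * g)
      rwa [mul_inv_cancel_left] at this
    have h4 : E h D ((PresentedGroup.of i)⁻¹ * g) g ≠ 0 := by
      intro h5
      rw [h5, add_zero] at h3
      rw [Set.mem_symmDiff, e1, e2, h3] at hq
      rcases hq with ⟨h6, h7⟩ | ⟨h6, h7⟩
      · exact h7 h6
      · exact h7 h6
    rcases hedge _ _ h4 with h5 | h5
    · right
      rw [Set.mem_smul_set_iff_inv_smul_mem]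
      exact h5
    · left
      exact h5
  -- heights of the powers of `m₀`
  have hpow : ∀ k : ℕ, h ((m₀ : PresentedGroup rels) ^ k) =
      h 1 + k * Multiplicative.toAdd (χ m₀) := by
    intro k
    have := hh 1 (m₀ ^ k)
    rw [one_mul, map_pow, toAdd_pow, nsmul_eq_mul] at this
    exact_mod_cast this
  have hpow' : ∀ k : ℕ, h (((m₀ : PresentedGroup rels) ^ k)⁻¹) =
      h 1 - k * Multiplicative.toAdd (χ m₀) := by
    intro k
    have := hh 1 (m₀ ^ k)⁻¹
    rw [one_mul, map_inv, map_pow, toAdd_inv, toAdd_pow, nsmul_eq_mul] at this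
    rw [sub_eq_add_neg]
    exact_mod_cast this
  have habs1 := neg_abs_le (h 1)
  have habs2 := le_abs_self (h 1)
  have hFpow : ∀ k : ℕ, F R ((m₀ : PresentedGroup rels) ^ k) =
      1 - ci h D ((m₀ : PresentedGroup rels) ^ k) := by
    intro k
    induction k with
    | zero =>
      rw [pow_zero, F_one R]
      have : ci h D (1 : PresentedGroup rels) = 1 := if_pos Relation.ReflTransGen.refl
      rw [this, sub_self]
    | succ k ih =>
      have h1 : (0 : ℤ) ≤ k * Multiplicative.toAdd (χ m₀) :=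
        mul_nonneg (Int.natCast_nonneg _) hm₀.le
      have h2 := F_high R hR hb hD1 w ((m₀ : PresentedGroup rels) ^ k) (by
        rw [hpow]
        linarith)
      rw [hw, ← pow_succ'] at h2
      rw [h2, ih]
      ring
  have hFpow' : ∀ k : ℕ, F R (((m₀ : PresentedGroup rels) ^ k)⁻¹) = 0 := by
    intro k
    induction k with
    | zero => rw [pow_zero, inv_one, F_one R]
    | succ k ih =>
      have h1 : (0 : ℤ) ≤ ((k + 1 : ℕ) : ℤ) * Multiplicative.toAdd (χ m₀) :=
        mul_nonneg (Int.natCast_nonneg _) hm₀.le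
      have h2 := F_low R hR hb w (((m₀ : PresentedGroup rels) ^ (k + 1))⁻¹) (by
        rw [hpow']
        linarith)
      rw [hw] at h2
      rw [← h2, ← ih]
      congr 1
      rw [pow_succ]
      group
  have hneq : ∀ x y : PresentedGroup rels,
      (QuotientGroup.mk x : PresentedGroup rels ⧸ H) = QuotientGroup.mk y → h x = h y := by
    intro x y hxy
    have h1 : x⁻¹ * y ∈ H := QuotientGroup.eq.mp hxy
    have h2 := height_stab χ hh _ _ h1 x
    rw [mul_inv_cancel_left] at h2
    exact h2.symm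
  obtain ⟨k₀, hk₀⟩ : ∃ k₀ : ℕ, D - h 1 < k₀ := ⟨(D - h 1).toNat + 1, by omega⟩
  have hUinf : U.Infinite := by
    refine Set.infinite_of_injective_forall_mem (f := fun k : ℕ =>
      (QuotientGroup.mk ((m₀ : PresentedGroup rels) ^ (k₀ + k)) : PresentedGroup rels ⧸ H)) ?_ ?_
    · intro k l hkl
      have h1 := hneq _ _ hkl
      rw [hpow, hpow] at h1
      have h2 : ((k₀ + k : ℕ) : ℤ) * Multiplicative.toAdd (χ m₀) =
          ((k₀ + l : ℕ) : ℤ) * Multiplicative.toAdd (χ m₀) := by linarith
      have h3 := mul_right_cancel₀ hm₀.ne' h2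
      omega
    · intro k
      rw [hU, hFpow]
      have h1 : D < h ((m₀ : PresentedGroup rels) ^ (k₀ + k)) := by
        rw [hpow]
        push_cast
        have h2 : ((k₀ : ℤ) + k) * 1 ≤ ((k₀ : ℤ) + k) * Multiplicative.toAdd (χ m₀) :=
          mul_le_mul_of_nonneg_left (by omega) (by positivity)
        have h3 : (0 : ℤ) ≤ k := Int.natCast_nonneg _
        linarith
      have h2 : ci h D ((m₀ : PresentedGroup rels) ^ (k₀ + k)) = 0 :=
        if_neg fun H' => absurd (abs_le.mp (Comp.abs_le hD1 H')).2 (not_le.mpr h1)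
      rw [h2]
      norm_num
  have hUinf' : Uᶜ.Infinite := by
    refine Set.infinite_of_injective_forall_mem (f := fun k : ℕ =>
      (QuotientGroup.mk (((m₀ : PresentedGroup rels) ^ k)⁻¹) : PresentedGroup rels ⧸ H)) ?_ ?_
    · intro k l hkl
      have h1 := hneq _ _ hkl
      rw [hpow', hpow'] at h1
      have h2 : (k : ℤ) * Multiplicative.toAdd (χ m₀) =
          (l : ℤ) * Multiplicative.toAdd (χ m₀) := by linarith
      exact_mod_cast mul_right_cancel₀ hm₀.ne' h2
    · intro k
      rw [Set.mem_compl_iff, hU, hFpow']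
      norm_num
  exact two_le_relEnds hS hS' hAI hUinf hUinf'

end Pool.Agent.H.MP_ee9c6f_al.Wall
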