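import Pool.Agent.H.MP_ee9c6f_al.E3Rep.Sem

/-!
MP_ee9c6f_al, genus 3 (helper77, after helper63's file for genus 4). The words of the presentation as
lists.
-/

set_option autoImplicit false

namespace Pool.Agent.H.MP_ee9c6f_al.E3Rep

/-- a letter -/
def g1 (i : Fin 7) : Wd := [(i, true)]

/-- inverse word -/
def iv (l : Wd) : Wd := FreeGroup.invRev l

def lb0 : Wd :=
  (g1 4 ++ g1 3 ++ g1 2 ++ g1 1 ++ g1 1 ++ g1 2 ++ g1 3 ++ g1 4) ++ g1 0 ++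
    iv (g1 4 ++ g1 3 ++ g1 2 ++ g1 1 ++ g1 1 ++ g1 2 ++ g1 3 ++ g1 4)

def lb1 : Wd :=
  iv (g1 4 ++ g1 5 ++ g1 3 ++ g1 4) ++ g1 0 ++ (g1 4 ++ g1 5 ++ g1 3 ++ g1 4)

def lb2 : Wd :=
  iv (g1 2 ++ g1 3 ++ g1 1 ++ g1 2) ++ lb1 ++ (g1 2 ++ g1 3 ++ g1 1 ++ g1 2)

def luu : Wd := iv (g1 6 ++ g1 5) ++ lb1 ++ (g1 6 ++ g1 5)

def lb3 : Wd :=
  (g1 6 ++ g1 5 ++ g1 4 ++ g1 3 ++ g1 2 ++ luu ++ iv (g1 1) ++ iv (g1 2) ++ iv (g1 3) ++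
    iv (g1 4)) ++ g1 0 ++
    iv (g1 6 ++ g1 5 ++ g1 4 ++ g1 3 ++ g1 2 ++ luu ++ iv (g1 1) ++ iv (g1 2) ++ iv (g1 3) ++
      iv (g1 4))

def lw1 : Wd :=
  (g1 6 ++ g1 5 ++ g1 4 ++ lb0) ++ (g1 3 ++ g1 2 ++ g1 4 ++ g1 3) ++
    (g1 5 ++ g1 4 ++ g1 6 ++ g1 5) ++ (lb0 ++ g1 4 ++ g1 3 ++ g1 2)

def ln3 : Wd := lw1 ++ g1 1 ++ iv lw1

def lhy : Wd :=
  g1 6 ++ g1 5 ++ g1 4 ++ g1 3 ++ g1 2 ++ g1 1 ++ g1 1 ++ g1 2 ++ g1 3 ++ g1 4 ++ g1 5 ++ g1 6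

/-- the 3-chain relator -/
def lch : Wd :=
  ((g1 1 ++ g1 2 ++ g1 3) ++ (g1 1 ++ g1 2 ++ g1 3) ++ (g1 1 ++ g1 2 ++ g1 3) ++
    (g1 1 ++ g1 2 ++ g1 3)) ++ iv (g1 0 ++ lb0)

/-- the lantern relator -/
def lla : Wd :=
  (g1 0 ++ lb2 ++ lb1) ++ iv (g1 1 ++ g1 3 ++ g1 5 ++ lb3)

/-- the hyperelliptic relator -/
def lhp : Wd := lhy ++ ln3 ++ iv (ln3 ++ lhy)

/-- the braid relator -/
def lbr (i j : Fin 7) : Wd := (g1 i ++ g1 j ++ g1 i) ++ iv (g1 j ++ g1 i ++ g1 j)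

/-- the commutation relator -/
def lco (i j : Fin 7) : Wd := (g1 i ++ g1 j) ++ iv (g1 j ++ g1 i)

/-- the element `z` -/
def lz : Wd := g1 1 ++ iv (g1 3) ++ iv (g1 2) ++ iv (g1 2) ++ iv (g1 3) ++ g1 1 ++ g1 2 ++ g1 2

end Pool.Agent.H.MP_ee9c6f_al.E3Rep
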